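import Pool.Agent.MP_28f2cb_lc.H22.Two

/-! Rationals with prescribed local symbols (Dirichlet's theorem and reciprocity) and the
local-global step for the quaternary form. -/

namespace Pool.Agent.MP_28f2cb_lc.H22

lemma v_prod {q : ℕ} (hq : q.Prime) (S : Finset ℕ) (hS : ∀ r ∈ S, r.Prime) :
    (∏ r ∈ S, (r : ℚ)) ≠ 0 ∧ padicValRat q (∏ r ∈ S, (r : ℚ)) = if q ∈ S then 1 else 0 := by
  have := Fact.mk hq
  induction S using Finset.induction_on with
  | empty => simp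
  | insert r S hr ih =>
    have h1 := ih (fun s hs => hS s (Finset.mem_insert_of_mem hs))
    have h2 := hS r (Finset.mem_insert_self _ _)
    have h3 : (r : ℚ) ≠ 0 := by exact_mod_cast h2.ne_zero
    rw [Finset.prod_insert hr, padicValRat.mul h3 h1.1, h1.2]
    refine ⟨mul_ne_zero h3 h1.1, ?_⟩
    by_cases h4 : q = r
    · subst h4
      simp [hr, hq.one_lt]
    · have := v_int (prime_not_dvd hq h2 h4)
      rw [Int.cast_natCast] at this
      rw [this]
      simp [h4]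

lemma exists_res {q : ℕ} (hq : q.Prime) (h2 : q ≠ 2) {σ : ℤ} (hσ : σ = 1 ∨ σ = -1) :
    ∃ r : ℕ, jacobiSym r q = σ := by
  have := Fact.mk hq
  rcases hσ with rfl | rfl
  · exact ⟨1, by simp [jacobiSym.one_left]⟩
  · obtain ⟨a, ha⟩ := FiniteField.exists_nonsquare (F := ZMod q) (by rwa [ZMod.ringChar_zmod_n])
    refine ⟨a.val, ZMod.nonsquare_iff_jacobiSym_eq_neg_one.2 ?_⟩
    simpa using ha

lemma dirichlet {T : Finset ℕ} (hT : ∀ q ∈ T, q.Prime ∧ q ≠ 2) (f : ℕ → ℚ)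
    (hf : ∀ q ∈ T, f q ≠ 0) : ∃ (y : ℚ) (l : ℕ), l.Prime ∧ l ≠ 2 ∧ l ∉ T ∧ 0 < y ∧
      padicValRat 2 y = 1 ∧ (∀ q ∈ T, LSq q (y * f q)) ∧
      ∀ q : ℕ, q.Prime → q ≠ 2 → q ∉ T → q ≠ l → padicValRat q y = 0 := by
  classical
  set S : Finset ℕ := insert 2 (T.filter (fun q => Odd (padicValRat q (f q)))) with hS
  have hSp : ∀ r ∈ S, r.Prime := by
    intro r hr
    rw [hS, Finset.mem_insert, Finset.mem_filter] at hr
    rcases hr with rfl | hr
    exacts [Nat.prime_two, (hT r hr.1).1]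
  set y₀ : ℚ := ∏ r ∈ S, (r : ℚ) with hy₀
  have hy0 : y₀ ≠ 0 := (v_prod Nat.prime_two S hSp).1
  have hypos : 0 < y₀ := Finset.prod_pos (fun r hr => by exact_mod_cast (hSp r hr).pos)
  have hres : ∀ q : ℕ, ∃ r : ℕ, q ∈ T → jacobiSym r q = chi q (y₀ * f q) := by
    intro q
    by_cases hq : q ∈ T
    · have := Fact.mk (hT q hq).1
      obtain ⟨r, hr⟩ := exists_res (hT q hq).1 (hT q hq).2
        (chi_cases (q := q) (mul_ne_zero hy0 (hf q hq)))
      exact ⟨r, fun _ => hr⟩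
    · exact ⟨0, fun h => absurd h hq⟩
  choose r hr using hres
  obtain ⟨k, hk⟩ := Nat.chineseRemainderOfFinset r id T (fun q hq => (hT q hq).1.ne_zero)
    (fun a ha b hb hab => (Nat.coprime_primes (hT a ha).1 (hT b hb).1).2 hab)
  have hjk : ∀ q ∈ T, ∀ l : ℕ, l ≡ k [MOD q] → jacobiSym l q = chi q (y₀ * f q) := by
    intro q hq l hl
    rw [← hr q hq]
    apply jacobiSym.mod_left'
    have : l ≡ r q [MOD q] := hl.trans (hk q hq)
    exact_mod_cast this
  have hnd : ∀ q ∈ T, ∀ l : ℕ, l ≡ k [MOD q] → ¬ (q : ℤ) ∣ (l : ℤ) := by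
    intro q hq l hl hd
    have := Fact.mk (hT q hq).1
    have h1 := hjk q hq l hl
    have h2 : jacobiSym l q = 0 := by
      rw [jacobiSym.mod_left, Int.emod_eq_zero_of_dvd hd, jacobiSym.zero_left (hT q hq).1.one_lt]
    rcases chi_cases (q := q) (mul_ne_zero hy0 (hf q hq)) with h | h <;> omega
  have hcop : k.Coprime (∏ q ∈ T, q) := by
    apply Nat.Coprime.prod_right
    intro q hq
    apply Nat.Coprime.symm
    rw [Nat.Prime.coprime_iff_not_dvd (hT q hq).1]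
    intro h
    exact hnd q hq k (Nat.ModEq.refl _) (by exact_mod_cast h)
  obtain ⟨l, hl2, hl, hlk⟩ := Nat.forall_exists_prime_gt_and_modEq 2
    (Finset.prod_ne_zero_iff.2 (fun q hq => (hT q hq).1.ne_zero)) hcop
  have hlq : ∀ q ∈ T, l ≡ k [MOD q] := fun q hq => hlk.of_dvd (Finset.dvd_prod_of_mem _ hq)
  have hlT : l ∉ T := fun h => hnd l h l (hlq l h) dvd_rfl
  have hl0 : (l : ℚ) ≠ 0 := by exact_mod_cast hl.ne_zero
  have hvl : ∀ q : ℕ, q.Prime → q ≠ l → padicValRat q (l : ℚ) = 0 := by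
    intro q hq hql
    have := v_int (prime_not_dvd hq hl hql)
    rwa [Int.cast_natCast] at this
  refine ⟨y₀ * l, l, hl, by omega, hlT, mul_pos hypos (by exact_mod_cast hl.pos), ?_, ?_, ?_⟩
  · rw [padicValRat.mul hy0 hl0, (v_prod Nat.prime_two S hSp).2, hvl 2 Nat.prime_two (by omega)]
    simp [hS]
  · intro q hq
    have := Fact.mk (hT q hq).1
    have e : y₀ * l * f q = y₀ * f q * l := by ring
    have h1 := mul_ne_zero hy0 (hf q hq)
    rw [e]
    refine ⟨mul_ne_zero h1 hl0, ?_, ?_⟩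
    · rw [padicValRat.mul h1 hl0, hvl q (hT q hq).1 (fun h => hlT (h ▸ hq)),
        padicValRat.mul hy0 (hf q hq), (v_prod (hT q hq).1 S hSp).2]
      have h2 : q ∈ S ↔ Odd (padicValRat q (f q)) := by
        simp [hS, hq, (hT q hq).2]
      by_cases h3 : Odd (padicValRat q (f q))
      · rw [if_pos (h2.2 h3), add_zero]; exact odd_one.add_odd h3
      · rw [if_neg (fun h => h3 (h2.1 h))]
        simpa using h3
    · have h2 := chi_int (hnd q hq l (hlq q hq))
      rw [Int.cast_natCast] at h2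
      rw [chi_mul h1 hl0, h2, hjk q hq l (hlq q hq), chi_mul_self h1]
  · intro q hq h2 hqT hql
    have := Fact.mk hq
    rw [padicValRat.mul hy0 hl0, (v_prod hq S hSp).2, hvl q hq hql]
    simp [hS, h2, hqT]

lemma two_step {d b β : ℚ} {p : ℕ} (hp : p.Prime) (hp2 : p ≠ 2) (hd0 : 0 < d)
    (hd : Ge 2 3 (d - 5)) (hb : Ge 2 2 (b - 1)) (hβ : 0 < β)
    (hpar : Ge 2 3 (b - 1) ∨ Odd (padicValRat 2 β))
    (hloc : ∀ q : ℕ, q.Prime → q ≠ 2 →
      ∃ y : ℚ, y ≠ 0 ∧ hs q d y = (if q = p then -1 else 1) ∧ hs q b (y * β) = 1) :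
    ∃ y : ℚ, 0 < y ∧ padicValRat 2 y = 1 ∧
      (∀ q : ℕ, q.Prime → q ≠ 2 → hs q d y = if q = p then -1 else 1) ∧ IsN b (y * β) := by
  have hloc' : ∀ q : ℕ, ∃ y : ℚ, q.Prime → q ≠ 2 →
      y ≠ 0 ∧ hs q d y = (if q = p then -1 else 1) ∧ hs q b (y * β) = 1 := by
    intro q
    by_cases h : q.Prime ∧ q ≠ 2
    · obtain ⟨y, hy⟩ := hloc q h.1 h.2
      exact ⟨y, fun _ _ => hy⟩
    · exact ⟨0, fun h1 h2 => absurd ⟨h1, h2⟩ h⟩
  choose f hf using hloc'
  have hb0 : b ≠ 0 := by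
    have : U 2 b := by simpa using U.one.add (hb.mono (by norm_num : (1 : ℤ) ≤ 2))
    exact this.1
  set T : Finset ℕ := insert p (supp d ∪ supp b ∪ supp β) with hTdef
  have hT : ∀ q ∈ T, q.Prime ∧ q ≠ 2 := by
    intro q hq
    simp only [hTdef, Finset.mem_insert, Finset.mem_union] at hq
    rcases hq with rfl | (hq | hq) | hq
    exacts [⟨hp, hp2⟩, supp_prime hq, supp_prime hq, supp_prime hq]
  obtain ⟨y, l, hl, hl2, hlT, hy, hy2, hyT, hyo⟩ := dirichlet hT f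
    (fun q hq => (hf q (hT q hq).1 (hT q hq).2).1)
  have hpT : p ∈ T := Finset.mem_insert_self _ _
  have hpl : p ≠ l := fun h => hlT (h ▸ hpT)
  have key : ∀ q : ℕ, q.Prime → q ≠ 2 → q ≠ l →
      hs q d y = (if q = p then -1 else 1) ∧ hs q b (y * β) = 1 := by
    intro q hq h2 hql
    have := Fact.mk hq
    by_cases hqT : q ∈ T
    · obtain ⟨h3, h4, h5⟩ := hf q hq h2
      refine ⟨?_, ?_⟩
      · rw [← h4]; exact hs_congr_right hd0.ne' hy.ne' h3 (hyT q hqT)
      · rw [← h5]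
        apply hs_congr_right hb0 (mul_ne_zero hy.ne' hβ.ne') (mul_ne_zero h3 hβ.ne')
        have e : y * β * (f q * β) = y * f q * β ^ 2 := by ring
        rw [e]
        exact (hyT q hqT).mul (LSq.sq hβ.ne')
    · have h3 := hyo q hq h2 hqT hql
      simp only [hTdef, Finset.mem_insert, Finset.mem_union, not_or] at hqT
      obtain ⟨h4, ⟨h5, h6⟩, h7⟩ := hqT
      rw [if_neg h4]
      refine ⟨hs_even ?_ ?_, hs_even ?_ ?_⟩
      · rw [v_of_not_mem_supp hd0.ne' hq h2 h5]; exact Even.zero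
      · rw [h3]; exact Even.zero
      · rw [v_of_not_mem_supp hb0 hq h2 h6]; exact Even.zero
      · rw [padicValRat.mul hy.ne' hβ.ne', h3, v_of_not_mem_supp hβ.ne' hq h2 h7]; exact Even.zero
  refine ⟨y, hy, hy2, ?_, ?_⟩
  · intro q hq h2
    by_cases hql : q = l
    · subst hql
      rw [if_neg hpl.symm]
      apply rec_two hd hy.ne' (Or.inl hd0) (by rw [hy2]; exact odd_one) hp hp2 hq h2 hpl
      · simpa using (key p hp hp2 hpl).1
      · intro r h3 h4 h5 h6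
        simpa [h5] using (key r h3 h4 h6).1
    · exact (key q hq h2 hql).1
  · apply legendre hb0 (mul_ne_zero hy.ne' hβ.ne') (Or.inr (mul_pos hy hβ))
    intro q hq h2
    by_cases hql : q = l
    · subst hql
      apply rec_one hb (mul_ne_zero hy.ne' hβ.ne') (Or.inr (mul_pos hy hβ)) _ hq h2
        (fun r h3 h4 h5 => (key r h3 h4 h5).2)
      refine hpar.imp id (fun h => ?_)
      rw [padicValRat.mul hy.ne' hβ.ne', hy2]
      exact odd_one.add_odd h
    · exact (key q hq h2 hql).2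

/-- The local-global step for the quaternary form. -/
lemma fin_step {d c G : ℚ} {p : ℕ} (hp : p.Prime) (hp2 : p ≠ 2) (hd0 : 0 < d)
    (hd : Ge 2 3 (d - 5)) (hc : c ≠ 0)
    (hΔ : ∀ q : ℕ, q.Prime → q ≠ 2 → hs q d c = if q = p then -1 else 1)
    (hG2 : Ge 2 2 G) (hGp : Ge p 1 (G ^ 2 / d)) :
    ∃ y z w : ℚ, d + G ^ 2 = d * y ^ 2 + c * (z ^ 2 - d * w ^ 2) := by
  by_cases hG : G = 0
  · exact ⟨1, 0, 0, by simp [hG]⟩
  have hU := U.of_five hd
  have hb : Ge 2 3 ((d + G ^ 2) * d - 1) := by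
    have h1 := hU.sq_sub_one.add ((hG2.sq.mul_zero hU.ge).mono (by norm_num))
    have e : d ^ 2 - 1 + G ^ 2 * d = (d + G ^ 2) * d - 1 := by ring
    rwa [e] at h1
  obtain ⟨y, hy, hy2, hyd, X, Y, hXY⟩ := two_step (b := (d + G ^ 2) * d) (β := 1) hp hp2 hd0 hd
    (hb.mono (by norm_num)) one_pos (Or.inl hb) (by
      intro q hq h2
      have := Fact.mk hq
      by_cases hqp : q = p
      · subst hqp
        refine ⟨c, hc, hΔ q hq h2, hs_of_LSq_left ?_⟩
        have h1 := (LSq.sq (q := q) hd0.ne').mul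
          ((LSq.one (q := q)).add (y := G ^ 2 / d) (by simpa using hGp))
        have e : d ^ 2 * (1 + G ^ 2 / d) = (d + G ^ 2) * d := by field_simp
        rwa [e] at h1
      · refine ⟨1, one_ne_zero, ?_, ?_⟩
        · rw [if_neg hqp]; exact hs_of_LSq_right LSq.one
        · rw [mul_one]; exact hs_of_LSq_right LSq.one)
  obtain ⟨Z, W, hZW⟩ := legendre hd0.ne' (mul_ne_zero hc hy.ne') (Or.inl hd0) (by
    intro q hq h2
    have := Fact.mk hq
    rw [hs_mul_right hd0.ne' hc hy.ne', hΔ q hq h2, hyd q hq h2]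
    split_ifs <;> norm_num)
  rw [mul_one] at hXY
  have e1 : y = (d + G ^ 2) * ((X + d * Y) / G) ^ 2 - d * ((X + (d + G ^ 2) * Y) / G) ^ 2 := by
    rw [hXY]; field_simp; ring
  set α := (X + d * Y) / G
  set β := (X + (d + G ^ 2) * Y) / G
  have hα : α ≠ 0 := by
    intro h0
    apply not_isN_of_odd hd (c := y) (by rw [hy2]; exact odd_one)
    exact ⟨0, β, by rw [e1, h0]; ring⟩
  refine ⟨β / α, Z / (c * α), W / (c * α), ?_⟩
  field_simp
  linear_combination hZW - c * e1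

/-- Moving a solution of `X^2 - κ W^2 = e` so that `κ W^2` has a pole. -/
lemma shrink {p : ℕ} [Fact p.Prime] (hp2 : p ≠ 2) {e κ X : ℚ} (hκ : Odd (padicValRat p κ))
    (hX : X ^ 2 - κ = e) (he : padicValRat p e < 0) :
    ∃ X' W : ℚ, W ≠ 0 ∧ X' ^ 2 - κ * W ^ 2 = e ∧ padicValRat p (κ * W ^ 2) < 0 := by
  by_cases h : padicValRat p κ < 0
  · exact ⟨X, 1, one_ne_zero, by simpa using hX, by simpa using h⟩
  obtain ⟨k, hk⟩ := hκ
  have hκ0 : κ ≠ 0 := by
    rintro rfl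
    simp at hk; omega
  have he0 : e ≠ 0 := by rintro rfl; simp at he
  have h1 := v_add (q := p) he0 (y := κ) (Ge.of_le (by omega))
  have e1 : e + κ = X ^ 2 := by linarith
  rw [e1, padicValRat.pow] at h1
  have hX0 : X ≠ 0 := by intro h0; apply h1.1; simp [h0]
  have h2 := h1.2
  push_cast at h2
  set r : ℚ := (p : ℚ) ^ k with hr
  have hr0 : r ≠ 0 := zpow_ne_zero _ q_ne
  have hvr : padicValRat p r = k := by rw [hr, padicValRat.zpow, v_self, mul_one]
  have hvr2 : padicValRat p (r ^ 2) = 2 * k := by rw [padicValRat.pow, hvr]; norm_num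
  have h3 := v_add (q := p) (pow_ne_zero 2 hr0) (y := -κ) (Ge.neg (Ge.of_le (by omega)))
  rw [← sub_eq_add_neg] at h3
  have h40 : 2 * r * X ≠ 0 := mul_ne_zero (mul_ne_zero two_ne_zero hr0) hX0
  have h4 : padicValRat p (2 * r * X) = k + padicValRat p X := by
    rw [padicValRat.mul (mul_ne_zero two_ne_zero hr0) hX0, padicValRat.mul two_ne_zero hr0,
      (U.two hp2).2, hvr, zero_add]
  have h5 := v_add (q := p) h40 (y := r ^ 2 + κ)
    ((Ge.of_le (by omega)).add (Ge.of_le (by omega)))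
  have hW := div_ne_zero h5.1 h3.1
  refine ⟨(X * (r ^ 2 + κ) + 2 * r * κ) / (r ^ 2 - κ), (2 * r * X + (r ^ 2 + κ)) / (r ^ 2 - κ),
    hW, ?_, ?_⟩
  · have := h3.1
    rw [← hX]; field_simp; ring
  · rw [padicValRat.mul hκ0 (pow_ne_zero _ hW), padicValRat.pow, padicValRat.div h5.1 h3.1, h5.2,
      h3.2, h4, hvr2]
    push_cast
    omega

end Pool.Agent.MP_28f2cb_lc.H22
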