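import Pool.Agent.MP_28f2cb_lc.H22.Local

/-! Legendre's theorem: local conditions at the odd primes and at infinity give a rational point
on a conic. -/

namespace Pool.Agent.MP_28f2cb_lc.H22

/-- `b` is a value of `X^2 - a Y^2`. -/
def IsN (a b : ℚ) : Prop := ∃ X Y : ℚ, b = X ^ 2 - a * Y ^ 2

lemma IsN.of_sq {t b : ℚ} (ht : t ≠ 0) : IsN (t ^ 2) b :=
  ⟨(b + 1) / 2, (b - 1) / (2 * t), by field_simp; ring⟩

lemma IsN.symm {a b : ℚ} (hb : b ≠ 0) (h : IsN a b) : IsN b a := by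
  obtain ⟨X, Y, h⟩ := h
  by_cases hY : Y = 0
  · have e : b = X ^ 2 := by simp [h, hY]
    rw [e]
    exact IsN.of_sq (by intro hX; apply hb; simp [e, hX])
  · exact ⟨X / Y, 1 / Y, by rw [h]; field_simp; ring⟩

lemma IsN.mul {a b c : ℚ} (h1 : IsN a b) (h2 : IsN a c) : IsN a (b * c) := by
  obtain ⟨X, Y, rfl⟩ := h1
  obtain ⟨U, V, rfl⟩ := h2
  exact ⟨X * U + a * Y * V, X * V + Y * U, by ring⟩

lemma IsN.sq (a k : ℚ) : IsN a (k ^ 2) := ⟨k, 0, by ring⟩

lemma IsN.of_mul {a b c : ℚ} (h1 : IsN a (b * c)) (h2 : IsN a c) (hc : c ≠ 0) : IsN a b := by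
  have e : b = b * c * c * (c⁻¹) ^ 2 := by field_simp
  rw [e]
  exact (h1.mul h2).mul (IsN.sq _ _)

lemma IsN.of_mul_sq_left {a b k : ℚ} (h : IsN (a * k ^ 2) b) : IsN a b := by
  obtain ⟨X, Y, h⟩ := h
  exact ⟨X, k * Y, by rw [h]; ring⟩

lemma exists_sq_mod (a : ℤ) (n : ℕ) (hn : Squarefree n)
    (h : ∀ q : ℕ, q.Prime → q ∣ n → ∃ t : ℤ, (q : ℤ) ∣ t ^ 2 - a) :
    ∃ t : ℤ, (n : ℤ) ∣ t ^ 2 - a := by
  induction n using induction_on_primes with
  | zero => exact absurd hn not_squarefree_zero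
  | one => exact ⟨0, by simp⟩
  | prime_mul p m hp ih =>
    have hcop : Nat.Coprime p m := Nat.coprime_of_squarefree_mul hn
    obtain ⟨t₂, h₂⟩ := ih (Squarefree.of_mul_right hn)
      (fun q hq hqm => h q hq (Dvd.dvd.mul_left hqm p))
    obtain ⟨t₁, h₁⟩ := h p hp (Dvd.intro m rfl)
    have hc : IsCoprime (p : ℤ) (m : ℤ) := Nat.isCoprime_iff_coprime.2 hcop
    obtain ⟨u, v, huv⟩ := hc
    refine ⟨t₁ * v * m + t₂ * u * p, ?_⟩
    push_cast
    apply IsCoprime.mul_dvd ⟨u, v, huv⟩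
    · have e : (t₁ * v * m + t₂ * u * p) ^ 2 - a = (t₁ ^ 2 - a) +
          p * (u * (t₂ - t₁) * (2 * t₁ + p * u * (t₂ - t₁))) := by
        have : t₁ * v * m = t₁ * (1 - u * p) := by rw [← huv]; ring
        rw [this]; ring
      rw [e]
      exact dvd_add h₁ (Dvd.intro _ rfl)
    · have e : (t₁ * v * m + t₂ * u * p) ^ 2 - a = (t₂ ^ 2 - a) +
          m * (v * (t₁ - t₂) * (2 * t₂ + m * v * (t₁ - t₂))) := by
        have : t₂ * u * p = t₂ * (1 - v * m) := by rw [← huv]; ring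
        rw [this]; ring
      rw [e]
      exact dvd_add h₂ (Dvd.intro _ rfl)

lemma legendre_step {a b : ℤ} (ha : a ≠ 0) (hb : b ≠ 0) (hab : a.natAbs ≤ b.natAbs)
    (hpos : 0 < a ∨ 0 < b) (h : ∀ q : ℕ, q.Prime → q ≠ 2 → hs q a b = 1)
    (ih : ∀ b' : ℤ, b' ≠ 0 → b'.natAbs < b.natAbs → (0 < a ∨ 0 < b') →
      (∀ q : ℕ, q.Prime → q ≠ 2 → hs q a b' = 1) → IsN a b') : IsN a b := by
  have haq : (a : ℚ) ≠ 0 := by exact_mod_cast ha
  have hbq : (b : ℚ) ≠ 0 := by exact_mod_cast hb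
  by_cases hsf : Squarefree b.natAbs
  swap
  · rw [Nat.squarefree_iff_prime_squarefree] at hsf
    push Not at hsf
    obtain ⟨k, hk, hkb⟩ := hsf
    have hkb' : ((k : ℤ) * k) ∣ b := by
      have : ((k * k : ℕ) : ℤ) ∣ b := Int.natCast_dvd.2 hkb
      exact_mod_cast this
    obtain ⟨b', hb'⟩ := hkb'
    have hb0 : b' ≠ 0 := by intro h0; apply hb; simp [hb', h0]
    have hk0 : (k : ℚ) ≠ 0 := by exact_mod_cast hk.ne_zero
    have hk2 := hk.two_le
    have e : (b : ℚ) = b' * (k : ℚ) ^ 2 := by rw [hb']; push_cast; ring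
    have h1 : IsN a b' := by
      apply ih b' hb0
      · rw [hb', Int.natAbs_mul, Int.natAbs_mul, Int.natAbs_natCast]
        have : 0 < b'.natAbs := Int.natAbs_pos.2 hb0
        nlinarith [Nat.mul_le_mul hk2 hk2]
      · refine hpos.imp id (fun h1 => ?_)
        rw [hb'] at h1
        have : (0 : ℤ) < k * k := by positivity
        exact (mul_pos_iff_of_pos_left this).1 h1
      · intro q hq hq2
        have := Fact.mk hq
        rw [← h q hq hq2, e, hs_mul_LSq_right haq (by exact_mod_cast hb0) (LSq.sq hk0)]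
    rw [e]
    exact h1.mul (IsN.sq _ _)
  by_cases hb1 : b.natAbs = 1
  · rcases Int.natAbs_eq_iff.1 hb1 with h1 | h1
    · exact ⟨1, 0, by simp [h1]⟩
    · have : a = 1 := by omega
      exact ⟨0, 1, by simp [h1, this]⟩
  have hb2 : 2 ≤ b.natAbs := by
    have : 0 < b.natAbs := Int.natAbs_pos.2 hb
    omega
  obtain ⟨t₀, ht₀⟩ := exists_sq_mod a b.natAbs hsf (by
    intro q hq hqb
    have := Fact.mk hq
    by_cases hqa : (q : ℤ) ∣ a
    · exact ⟨0, by simpa using hqa⟩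
    by_cases hq2 : q = 2
    · subst hq2
      refine ⟨1, ?_⟩
      push_cast at hqa ⊢
      omega
    have hv : padicValRat q (b : ℚ) = 1 := by
      rw [padicValRat.of_int, padicValInt]
      have h1 := one_le_padicValNat_of_dvd (p := q) (Int.natAbs_ne_zero.2 hb) hqb
      have h2 : ¬ q ^ 2 ∣ b.natAbs := by
        intro h2
        exact Nat.squarefree_iff_prime_squarefree.1 hsf q hq (by simpa [pow_two] using h2)
      rw [padicValNat_dvd_iff_le (Int.natAbs_ne_zero.2 hb)] at h2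
      omega
    have h1 := h q hq hq2
    rw [hs_even_odd (by rw [v_int hqa]; exact Even.zero) (by rw [hv]; exact odd_one),
      chi_int hqa] at h1
    obtain ⟨r, hr⟩ := ZMod.isSquare_of_jacobiSym_eq_one h1
    refine ⟨(r.val : ℤ), ?_⟩
    rw [← ZMod.intCast_zmod_eq_zero_iff_dvd]
    push_cast
    rw [hr, ZMod.natCast_zmod_val]; ring)
  -- reduce t to the symmetric range
  set N : ℤ := (b.natAbs : ℤ) with hN
  have hN2 : 2 ≤ N := by rw [hN]; exact_mod_cast hb2
  set t : ℤ := Int.bmod t₀ b.natAbs with ht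
  have ht1 : N ∣ t - t₀ := Int.dvd_bmod_sub_self
  have ht2 : -(N / 2) ≤ t := by
    have := Int.le_bmod (x := t₀) (m := b.natAbs) (by omega)
    simpa [hN] using this
  have ht3 : t < (N + 1) / 2 := by
    have := Int.bmod_lt (x := t₀) (m := b.natAbs) (by omega)
    simpa [hN] using this
  have ht4 : N ∣ t ^ 2 - a := by
    have e : t ^ 2 - a = (t₀ ^ 2 - a) + (t - t₀) * (t + t₀) := by ring
    rw [e]
    exact dvd_add ht₀ (Dvd.dvd.mul_right ht1 _)
  obtain ⟨b', hb'⟩ : b ∣ t ^ 2 - a := Int.natAbs_dvd.1 ht4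
  by_cases hb0 : b' = 0
  · have e : (a : ℚ) = (t : ℚ) ^ 2 := by
      have : a = t ^ 2 := by rw [hb0] at hb'; linarith
      exact_mod_cast this
    rw [e]
    exact IsN.of_sq (by intro h0; apply haq; simp [e, h0])
  have hb0q : (b' : ℚ) ≠ 0 := by exact_mod_cast hb0
  have e : (b : ℚ) * b' = (t : ℚ) ^ 2 - a * 1 ^ 2 := by
    have : b * b' = t ^ 2 - a * 1 ^ 2 := by linarith
    exact_mod_cast this
  have h1 : IsN a b' := by
    apply ih b' hb0
    · have h2 : 4 * t ^ 2 ≤ N ^ 2 := by nlinarith [(by omega : -N ≤ 2 * t), (by omega : 2 * t ≤ N)]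
      have h3 : |a| ≤ N := by rw [Int.abs_eq_natAbs, hN]; exact_mod_cast hab
      have h4 : N * |b'| = |t ^ 2 - a| := by
        rw [hb', abs_mul, hN, Int.natCast_natAbs]
      have h5 : |t ^ 2 - a| ≤ t ^ 2 + |a| := by
        have := abs_sub (t ^ 2) a
        rwa [abs_of_nonneg (sq_nonneg t)] at this
      have h6 : |b'| < N := by
        by_contra h6
        push Not at h6
        nlinarith
      rw [Int.abs_eq_natAbs, hN] at h6
      exact_mod_cast h6
    · by_cases h2 : 0 < a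
      · exact Or.inl h2
      right
      have h3 : 0 < b := hpos.resolve_left h2
      have h4 : 0 < b * b' := by
        rw [← hb']
        have : a < 0 := by omega
        nlinarith [sq_nonneg t]
      exact (mul_pos_iff_of_pos_left h3).1 h4
    · intro q hq hq2
      have := Fact.mk hq
      have h2 := hs_norm (q := q) (u := t) (w := 1) haq (by rw [← e]; exact mul_ne_zero hbq hb0q)
      rw [← e, hs_mul_right haq hbq hb0q, h q hq hq2, one_mul] at h2
      exact h2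
  exact IsN.of_mul ⟨t, 1, e⟩ h1 hb0q

lemma legendre_int (n : ℕ) : ∀ a b : ℤ, a.natAbs + b.natAbs = n → a ≠ 0 → b ≠ 0 →
    (0 < a ∨ 0 < b) → (∀ q : ℕ, q.Prime → q ≠ 2 → hs q a b = 1) → IsN a b := by
  induction n using Nat.strong_induction_on with
  | _ n ih =>
    intro a b hn ha hb hpos h
    rcases le_total a.natAbs b.natAbs with hab | hab
    · exact legendre_step ha hb hab hpos h
        (fun b' h1 h2 h3 h4 => ih _ (by omega) a b' rfl ha h1 h3 h4)
    · apply IsN.symm (by exact_mod_cast ha)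
      exact legendre_step hb ha hab hpos.symm (fun q h1 h2 => by rw [hs_comm]; exact h q h1 h2)
        (fun b' h1 h2 h3 h4 => ih _ (by omega) b b' rfl hb h1 h3 h4)

lemma int_rep (a : ℚ) : ((a.num * a.den : ℤ) : ℚ) = a * (a.den : ℚ) ^ 2 := by
  push_cast
  rw [← Rat.mul_den_eq_num]; ring

theorem legendre {a b : ℚ} (ha : a ≠ 0) (hb : b ≠ 0) (hpos : 0 < a ∨ 0 < b)
    (h : ∀ q : ℕ, q.Prime → q ≠ 2 → hs q a b = 1) : IsN a b := by
  have hda : (a.den : ℚ) ≠ 0 := by exact_mod_cast a.den_nz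
  have hdb : (b.den : ℚ) ≠ 0 := by exact_mod_cast b.den_nz
  have h1 := legendre_int _ (a.num * a.den) (b.num * b.den) rfl
    (mul_ne_zero (Rat.num_ne_zero.2 ha) (by exact_mod_cast a.den_nz))
    (mul_ne_zero (Rat.num_ne_zero.2 hb) (by exact_mod_cast b.den_nz))
    (hpos.imp (fun h => mul_pos (Rat.num_pos.2 h) (by exact_mod_cast a.den_pos))
      (fun h => mul_pos (Rat.num_pos.2 h) (by exact_mod_cast b.den_pos)))
    (by
      intro q hq hq2
      have := Fact.mk hq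
      rw [int_rep, int_rep, hs_mul_LSq_right (mul_ne_zero ha (pow_ne_zero _ hda)) hb (LSq.sq hdb),
        hs_comm, hs_mul_LSq_right hb ha (LSq.sq hda), hs_comm, h q hq hq2])
  rw [int_rep, int_rep] at h1
  exact (h1.of_mul_sq_left).of_mul (IsN.sq _ _) (pow_ne_zero _ hdb)

end Pool.Agent.MP_28f2cb_lc.H22
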