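import Mathlib

/-! Local theory at a prime: valuation bounds, the residue character of the unit part and the
tame quadratic symbol of two rationals. -/

namespace Pool.Agent.MP_28f2cb_lc.H22

/-- `x` is zero or has `q`-adic valuation at least `k`. -/
def Ge (q : ℕ) (k : ℤ) (x : ℚ) : Prop := x = 0 ∨ k ≤ padicValRat q x

/-- The unit part of `x` at `q`. -/
def up (q : ℕ) (x : ℚ) : ℚ := x / (q : ℚ) ^ (padicValRat q x)

/-- The quadratic character of the unit part. -/
def chi (q : ℕ) (x : ℚ) : ℤ := jacobiSym ((up q x).num * (up q x).den) q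

/-- The tame symbol. -/
def hs (q : ℕ) (a b : ℚ) : ℤ :=
  (if Odd (padicValRat q a) ∧ Odd (padicValRat q b) then chi q (-1) else 1) *
  (if Odd (padicValRat q b) then chi q a else 1) * (if Odd (padicValRat q a) then chi q b else 1)

/-- Local squares (at an odd prime). -/
def LSq (q : ℕ) (x : ℚ) : Prop := x ≠ 0 ∧ Even (padicValRat q x) ∧ chi q x = 1

variable {q : ℕ} [hq : Fact q.Prime]

omit hq in
lemma Ge.zero (k : ℤ) : Ge q k 0 := Or.inl rfl

omit hq in
lemma Ge.self (x : ℚ) : Ge q (padicValRat q x) x := Or.inr le_rfl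

omit hq in
lemma Ge.of_le {k : ℤ} {x : ℚ} (h : k ≤ padicValRat q x) : Ge q k x := Or.inr h

omit hq in
lemma Ge.le {k : ℤ} {x : ℚ} (h : Ge q k x) (hx : x ≠ 0) : k ≤ padicValRat q x :=
  h.resolve_left hx

omit hq in
lemma Ge.mono {k l : ℤ} {x : ℚ} (h : Ge q k x) (hl : l ≤ k) : Ge q l x :=
  h.imp id (fun h => hl.trans h)

omit hq in
lemma Ge.neg {k : ℤ} {x : ℚ} (h : Ge q k x) : Ge q k (-x) := by
  rcases h with h | h
  · left; simp [h]
  · right; rwa [padicValRat.neg]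

lemma Ge.add {k : ℤ} {x y : ℚ} (hx : Ge q k x) (hy : Ge q k y) : Ge q k (x + y) := by
  by_cases h : x + y = 0
  · exact Or.inl h
  rcases hx with hx | hx
  · simpa [hx] using hy
  rcases hy with hy | hy
  · rw [hy, add_zero]; exact Or.inr hx
  exact Or.inr ((le_min hx hy).trans (padicValRat.min_le_padicValRat_add h))

lemma Ge.sub {k : ℤ} {x y : ℚ} (hx : Ge q k x) (hy : Ge q k y) : Ge q k (x - y) := by
  rw [sub_eq_add_neg]; exact hx.add hy.neg

lemma Ge.mul {k l : ℤ} {x y : ℚ} (hx : Ge q k x) (hy : Ge q l y) : Ge q (k + l) (x * y) := by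
  by_cases h0 : x = 0
  · left; simp [h0]
  by_cases h1 : y = 0
  · left; simp [h1]
  right
  rw [padicValRat.mul h0 h1]
  exact add_le_add (hx.le h0) (hy.le h1)

lemma Ge.div {k : ℤ} {x y : ℚ} (hx : Ge q k x) (hy : y ≠ 0) :
    Ge q (k - padicValRat q y) (x / y) := by
  by_cases h0 : x = 0
  · left; simp [h0]
  right
  rw [padicValRat.div h0 hy]
  have := hx.le h0
  omega

lemma Ge.sq {k : ℤ} {x : ℚ} (hx : Ge q k x) : Ge q (2 * k) (x ^ 2) := by
  rw [pow_two, two_mul]; exact hx.mul hx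

omit hq in
lemma Ge.int (z : ℤ) : Ge q 0 (z : ℚ) := by
  right; rw [padicValRat.of_int]; exact Int.natCast_nonneg _

omit hq in
lemma Ge.nat (z : ℕ) : Ge q 0 (z : ℚ) := by
  have := Ge.int (q := q) (z : ℤ)
  simpa using this

omit hq in
lemma Ge.one : Ge q 0 1 := by
  simpa using Ge.int (q := q) 1

omit hq in
lemma Ge.ofNat (n : ℕ) [n.AtLeastTwo] : Ge q 0 (OfNat.ofNat n : ℚ) := Ge.nat (q := q) n

lemma Ge.of_dvd {z : ℤ} (h : (q : ℤ) ∣ z) : Ge q 1 (z : ℚ) := by
  by_cases hz : z = 0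
  · left; simp [hz]
  right
  rw [padicValRat.of_int]
  have := (padicValInt_dvd_iff (p := q) 1 z).1 (by simpa using h)
  rcases this with h | h
  · exact absurd h hz
  · exact_mod_cast h

omit hq in
lemma v_int {z : ℤ} (h : ¬ (q : ℤ) ∣ z) : padicValRat q (z : ℚ) = 0 := by
  rw [padicValRat.of_int, padicValInt.eq_zero_of_not_dvd h]; rfl

lemma v_self : padicValRat q (q : ℚ) = 1 := padicValRat.self hq.1.one_lt

lemma q_ne : (q : ℚ) ≠ 0 := by exact_mod_cast hq.1.ne_zero

/-- Adding something smaller does not change the valuation. -/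
lemma v_add {x y : ℚ} (hx : x ≠ 0) (hy : Ge q (padicValRat q x + 1) y) :
    x + y ≠ 0 ∧ padicValRat q (x + y) = padicValRat q x := by
  by_cases h0 : y = 0
  · simp [h0, hx]
  have h1 := hy.le h0
  have hne : x + y ≠ 0 := by
    intro h
    have : y = -x := by linarith
    rw [this, padicValRat.neg] at h1
    omega
  exact ⟨hne, padicValRat.add_eq_of_lt hne hx h0 (by omega)⟩

lemma not_dvd_den {x : ℚ} (hx : Ge q 0 x) : ¬ (q : ℤ) ∣ (x.den : ℤ) := by
  intro h
  by_cases h0 : x = 0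
  · subst h0
    simp at h
    have := hq.1.one_lt
    have := Int.le_of_dvd one_pos h
    omega
  have h1 := hx.le h0
  have h2 : q ∣ x.den := by exact_mod_cast h
  have h3 : ¬ (q : ℤ) ∣ x.num := by
    intro h4
    have h5 : q ∣ x.num.natAbs := Int.natCast_dvd.1 h4
    have := Nat.dvd_gcd h5 h2
    rw [x.reduced] at this
    exact hq.1.one_lt.ne' (Nat.dvd_one.1 this)
  rw [padicValRat_def, padicValInt.eq_zero_of_not_dvd h3] at h1
  have := one_le_padicValNat_of_dvd x.den_nz h2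
  omega

omit hq in
lemma dvd_num {x : ℚ} (hx : Ge q 1 x) : (q : ℤ) ∣ x.num := by
  by_cases h0 : x = 0
  · simp [h0]
  have h1 := hx.le h0
  by_contra h3
  rw [padicValRat_def, padicValInt.eq_zero_of_not_dvd h3] at h1
  omega

lemma not_dvd_num {x : ℚ} (hx : x ≠ 0) (h : padicValRat q x ≤ 0) : ¬ (q : ℤ) ∣ x.num := by
  intro h1
  have h5 : q ∣ x.num.natAbs := Int.natCast_dvd.1 h1
  have h2 : ¬ q ∣ x.den := by
    intro h2
    have := Nat.dvd_gcd h5 h2
    rw [x.reduced] at this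
    exact hq.1.one_lt.ne' (Nat.dvd_one.1 this)
  rw [padicValRat_def, padicValNat.eq_zero_of_not_dvd h2] at h
  have h6 := (padicValInt_dvd_iff (p := q) 1 x.num).1 (by simpa using h1)
  rcases h6 with h6 | h6
  · exact hx (Rat.num_eq_zero.1 h6)
  · omega

omit hq in
lemma Ge.of_not_dvd_den {x : ℚ} (h : ¬ q ∣ x.den) : Ge q 0 x := by
  right
  rw [padicValRat_def, padicValNat.eq_zero_of_not_dvd h]
  simp

lemma gcd_one {z : ℤ} (h : ¬ (q : ℤ) ∣ z) : z.gcd q = 1 := by
  have : Nat.Coprime q z.natAbs := (Nat.Prime.coprime_iff_not_dvd hq.1).2 (by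
    intro h1; exact h (Int.natCast_dvd.2 h1))
  rw [Int.gcd]
  simpa using this.symm

lemma prime_int : Prime (q : ℤ) := Nat.prime_iff_prime_int.1 hq.1

lemma not_dvd_mul {a b : ℤ} (ha : ¬ (q : ℤ) ∣ a) (hb : ¬ (q : ℤ) ∣ b) : ¬ (q : ℤ) ∣ a * b :=
  fun h => (prime_int.dvd_or_dvd h).elim ha hb

lemma chi_eq {u w : ℤ} (hu : ¬ (q : ℤ) ∣ u) (hw : ¬ (q : ℤ) ∣ w) (k : ℤ) {x : ℚ}
    (hx : x = (q : ℚ) ^ k * ((u : ℚ) / w)) :
    padicValRat q x = k ∧ chi q x = jacobiSym (u * w) q := by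
  have hu0 : (u : ℚ) ≠ 0 := by
    intro h; apply hu; have : u = 0 := by exact_mod_cast h
    simp [this]
  have hw0 : (w : ℚ) ≠ 0 := by
    intro h; apply hw; have : w = 0 := by exact_mod_cast h
    simp [this]
  have hv : padicValRat q x = k := by
    rw [hx, padicValRat.mul (zpow_ne_zero _ q_ne) (div_ne_zero hu0 hw0), padicValRat.zpow,
      padicValRat.div hu0 hw0, v_self, v_int hu, v_int hw]
    ring
  refine ⟨hv, ?_⟩
  have hup : up q x = (u : ℚ) / w := by
    rw [up, hv, hx]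
    field_simp [zpow_ne_zero _ (q_ne (q := q))]
  rw [chi, hup]
  set y : ℚ := (u : ℚ) / w with hy
  have hy0 : padicValRat q y = 0 := by
    rw [hy, padicValRat.div hu0 hw0, v_int hu, v_int hw]; rfl
  have hd : ¬ (q : ℤ) ∣ (y.den : ℤ) := not_dvd_den (Ge.of_le hy0.ge)
  have e : y.num * w = u * y.den := by
    have h1 : (y.num : ℚ) = y * y.den := (Rat.mul_den_eq_num y).symm
    have : (y.num : ℚ) * w = u * y.den := by
      rw [h1]
      have : y * w = u := by rw [hy]; field_simp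
      rw [← this]; ring
    exact_mod_cast this
  calc jacobiSym (y.num * y.den) q = jacobiSym (y.num * y.den) q * jacobiSym (w ^ 2) q := by
        rw [jacobiSym.sq_one' (gcd_one hw), mul_one]
    _ = jacobiSym (u * w) q * jacobiSym ((y.den : ℤ) ^ 2) q := by
        rw [← jacobiSym.mul_left, ← jacobiSym.mul_left]
        congr 1
        linear_combination (y.den * w) * e
    _ = jacobiSym (u * w) q := by rw [jacobiSym.sq_one' (gcd_one hd), mul_one]

lemma exists_rep {x : ℚ} (hx : x ≠ 0) : ∃ u w : ℤ, ¬ (q : ℤ) ∣ u ∧ ¬ (q : ℤ) ∣ w ∧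
    x = (q : ℚ) ^ (padicValRat q x) * ((u : ℚ) / w) := by
  have h0 : up q x ≠ 0 := div_ne_zero hx (zpow_ne_zero _ q_ne)
  have h1 : padicValRat q (up q x) = 0 := by
    rw [up, padicValRat.div hx (zpow_ne_zero _ q_ne), padicValRat.zpow, v_self]; ring
  refine ⟨(up q x).num, (up q x).den, not_dvd_num h0 h1.le, not_dvd_den (Ge.of_le h1.ge), ?_⟩
  rw [Int.cast_natCast, Rat.num_div_den, up]
  field_simp [zpow_ne_zero _ (q_ne (q := q))]

lemma chi_mul {x y : ℚ} (hx : x ≠ 0) (hy : y ≠ 0) : chi q (x * y) = chi q x * chi q y := by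
  obtain ⟨u, w, hu, hw, e⟩ := exists_rep (q := q) hx
  obtain ⟨u', w', hu', hw', e'⟩ := exists_rep (q := q) hy
  rw [(chi_eq hu hw _ e).2, (chi_eq hu' hw' _ e').2,
    (chi_eq (not_dvd_mul hu hu') (not_dvd_mul hw hw') (padicValRat q x + padicValRat q y)
      (x := x * y) ?_).2, ← jacobiSym.mul_left]
  · congr 1; ring
  · conv_lhs => rw [e, e']
    rw [zpow_add₀ q_ne]
    push_cast
    rw [mul_div_mul_comm]
    ring

lemma chi_cases {x : ℚ} (hx : x ≠ 0) : chi q x = 1 ∨ chi q x = -1 := by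
  obtain ⟨u, w, hu, hw, e⟩ := exists_rep (q := q) hx
  rw [(chi_eq hu hw _ e).2]
  exact jacobiSym.eq_one_or_neg_one (gcd_one (not_dvd_mul hu hw))

lemma chi_mul_self {x : ℚ} (hx : x ≠ 0) : chi q x * chi q x = 1 := by
  rcases chi_cases (q := q) hx with h | h <;> simp [h]

lemma not_dvd_one : ¬ (q : ℤ) ∣ 1 := by
  intro h
  have := hq.1.one_lt
  have := Int.le_of_dvd one_pos h
  omega

lemma chi_int {u : ℤ} (hu : ¬ (q : ℤ) ∣ u) : chi q (u : ℚ) = jacobiSym u q := by
  have := (chi_eq hu not_dvd_one 0 (x := (u : ℚ)) (by simp)).2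
  simpa using this

lemma chi_one : chi q 1 = 1 := by
  have := chi_int (q := q) not_dvd_one
  simpa [jacobiSym.one_left] using this

lemma chi_self : chi q (q : ℚ) = 1 := by
  have := (chi_eq (q := q) not_dvd_one not_dvd_one 1 (x := (q : ℚ)) (by simp)).2
  simpa [jacobiSym.one_left] using this

lemma chi_sq {x : ℚ} (hx : x ≠ 0) : chi q (x ^ 2) = 1 := by
  rw [pow_two, chi_mul hx hx, chi_mul_self hx]

lemma chi_one_add {y : ℚ} (hy : Ge q 1 y) : chi q (1 + y) = 1 := by
  have hd := not_dvd_den (hy.mono (by norm_num : (0 : ℤ) ≤ 1))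
  have hn := dvd_num hy
  have hu : ¬ (q : ℤ) ∣ (y.den + y.num) := fun h => hd ((dvd_add_left hn).1 h)
  have e : 1 + y = (q : ℚ) ^ (0 : ℤ) * (((y.den + y.num : ℤ) : ℚ) / ((y.den : ℤ) : ℚ)) := by
    have h1 : (y.num : ℚ) = y * y.den := (Rat.mul_den_eq_num y).symm
    have h2 : (y.den : ℚ) ≠ 0 := by exact_mod_cast y.den_nz
    push_cast
    rw [h1]
    field_simp
  rw [(chi_eq hu hd 0 e).2, ← jacobiSym.sq_one' (gcd_one hd)]
  apply jacobiSym.mod_left'
  obtain ⟨c, hc⟩ := hn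
  rw [hc]
  have : ((y.den : ℤ) + q * c) * y.den = (y.den : ℤ) ^ 2 + q * (c * y.den) := by ring
  rw [this, Int.add_mul_emod_self_left]

/-- Adding something smaller does not change the character. -/
lemma chi_add {x y : ℚ} (hx : x ≠ 0) (hy : Ge q (padicValRat q x + 1) y) :
    chi q (x + y) = chi q x := by
  have h1 : Ge q 1 (y / x) := (hy.div hx).mono (by omega)
  have h2 := (v_add (q := q) one_ne_zero (y := y / x) (by simpa using h1)).1
  have e : x + y = x * (1 + y / x) := by field_simp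
  rw [e, chi_mul hx h2, chi_one_add h1, mul_one]

lemma LSq.sq {x : ℚ} (hx : x ≠ 0) : LSq q (x ^ 2) :=
  ⟨pow_ne_zero _ hx, by rw [padicValRat.pow]; exact even_two_mul _, chi_sq hx⟩

lemma LSq.one : LSq q 1 := by simpa using LSq.sq (q := q) one_ne_zero

lemma LSq.mul {x y : ℚ} (hx : LSq q x) (hy : LSq q y) : LSq q (x * y) :=
  ⟨mul_ne_zero hx.1 hy.1, by rw [padicValRat.mul hx.1 hy.1]; exact hx.2.1.add hy.2.1,
    by rw [chi_mul hx.1 hy.1, hx.2.2, hy.2.2, mul_one]⟩

lemma LSq.add {x y : ℚ} (hx : LSq q x) (hy : Ge q (padicValRat q x + 1) y) : LSq q (x + y) :=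
  ⟨(v_add hx.1 hy).1, by rw [(v_add hx.1 hy).2]; exact hx.2.1, by rw [chi_add hx.1 hy, hx.2.2]⟩

lemma LSq.of_mul {x y : ℚ} (h : LSq q (x * y)) (hy : LSq q y) : LSq q x := by
  have e : x = x * y * y * (y⁻¹) ^ 2 := by have := hy.1; field_simp
  rw [e]
  exact (h.mul hy).mul (LSq.sq (inv_ne_zero hy.1))

omit hq in
lemma hs_comm (a b : ℚ) : hs q a b = hs q b a := by
  unfold hs
  simp only [and_comm]
  ring

lemma hs_mul_right {a b c : ℚ} (ha : a ≠ 0) (hb : b ≠ 0) (hc : c ≠ 0) :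
    hs q a (b * c) = hs q a b * hs q a c := by
  unfold hs
  rw [padicValRat.mul hb hc, chi_mul hb hc]
  have h1 := chi_cases (q := q) ha
  have h2 := chi_cases (q := q) (x := -1) (by norm_num)
  by_cases o1 : Odd (padicValRat q a) <;> by_cases o2 : Odd (padicValRat q b) <;>
    by_cases o3 : Odd (padicValRat q c) <;>
    simp [Int.odd_add, o1, o2, o3, ← Int.not_odd_iff_even] <;>
    rcases h1 with h1 | h1 <;> rcases h2 with h2 | h2 <;> simp [h1, h2]

lemma hs_mul_left {a b c : ℚ} (ha : a ≠ 0) (hb : b ≠ 0) (hc : c ≠ 0) :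
    hs q (a * b) c = hs q a c * hs q b c := by
  rw [hs_comm, hs_mul_right hc ha hb, hs_comm c a, hs_comm c b]

omit hq in
lemma hs_of_LSq_right {a b : ℚ} (hb : LSq q b) : hs q a b = 1 := by
  unfold hs
  simp [hb.2.2, Int.not_odd_iff_even.2 hb.2.1]

omit hq in
lemma hs_of_LSq_left {a b : ℚ} (ha : LSq q a) : hs q a b = 1 := by
  rw [hs_comm]; exact hs_of_LSq_right ha

omit hq in
lemma hs_even {a b : ℚ} (ha : Even (padicValRat q a)) (hb : Even (padicValRat q b)) :
    hs q a b = 1 := by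
  unfold hs
  simp [Int.not_odd_iff_even.2 ha, Int.not_odd_iff_even.2 hb]

omit hq in
lemma hs_even_odd {a b : ℚ} (ha : Even (padicValRat q a)) (hb : Odd (padicValRat q b)) :
    hs q a b = chi q a := by
  unfold hs
  simp [Int.not_odd_iff_even.2 ha, hb]

lemma hs_cases {a b : ℚ} (ha : a ≠ 0) (hb : b ≠ 0) : hs q a b = 1 ∨ hs q a b = -1 := by
  unfold hs
  have h1 := chi_cases (q := q) ha
  have h3 := chi_cases (q := q) hb
  have h2 := chi_cases (q := q) (x := -1) (by norm_num)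
  split_ifs <;> rcases h1 with h1 | h1 <;> rcases h2 with h2 | h2 <;> rcases h3 with h3 | h3 <;>
    simp [h1, h2, h3]

lemma hs_neg_self {a : ℚ} (ha : a ≠ 0) : hs q a (-a) = 1 := by
  unfold hs
  have e : chi q (-a) = chi q (-1) * chi q a := by
    rw [← chi_mul (by norm_num) ha]; simp
  rw [padicValRat.neg, e]
  have h1 := chi_cases (q := q) ha
  have h2 := chi_cases (q := q) (x := -1) (by norm_num)
  by_cases o1 : Odd (padicValRat q a) <;> rcases h1 with h1 | h1 <;> rcases h2 with h2 | h2 <;>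
    simp [o1, h1, h2]

lemma hs_mul_LSq_right {a b c : ℚ} (ha : a ≠ 0) (hb : b ≠ 0) (hc : LSq q c) :
    hs q a (b * c) = hs q a b := by
  rw [hs_mul_right ha hb hc.1, hs_of_LSq_right hc, mul_one]

lemma hs_congr_right {a b c : ℚ} (ha : a ≠ 0) (hb : b ≠ 0) (hc : c ≠ 0) (h : LSq q (b * c)) :
    hs q a b = hs q a c := by
  have h1 := hs_mul_right (q := q) ha hb hc
  rw [hs_of_LSq_right h] at h1
  rcases hs_cases (q := q) ha hb with h2 | h2 <;> rcases hs_cases (q := q) ha hc with h3 | h3 <;>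
    simp [h2, h3] at h1 ⊢

/-- For a local non-square `a` the form `u^2 - a w^2` has no cancellation. -/
lemma v_norm_le {a u w : ℚ} (ha : ¬ LSq q a) (hu : u ≠ 0) :
    u ^ 2 - a * w ^ 2 ≠ 0 ∧ padicValRat q (u ^ 2 - a * w ^ 2) ≤ 2 * padicValRat q u := by
  by_contra h
  have h1 : Ge q (padicValRat q (u ^ 2) + 1) (u ^ 2 - a * w ^ 2) := by
    by_cases h0 : u ^ 2 - a * w ^ 2 = 0
    · exact Or.inl h0
    right
    rw [padicValRat.pow]
    push Not at h
    have := h h0
    push_cast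
    omega
  have h2 := (LSq.sq (q := q) hu).add h1.neg
  have e : u ^ 2 + -(u ^ 2 - a * w ^ 2) = a * w ^ 2 := by ring
  rw [e] at h2
  have hw : w ≠ 0 := by
    intro hw; apply h2.1; simp [hw]
  exact ha (h2.of_mul (LSq.sq hw))

/-- Norms have trivial symbol. -/
lemma hs_norm {a u w : ℚ} (ha0 : a ≠ 0) (h : u ^ 2 - a * w ^ 2 ≠ 0) :
    hs q a (u ^ 2 - a * w ^ 2) = 1 := by
  by_cases ha : LSq q a
  · exact hs_of_LSq_left ha
  by_cases hw : w = 0
  · have hu : u ≠ 0 := by intro hu; apply h; simp [hu, hw]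
    simp only [hw]
    simpa using hs_of_LSq_right (LSq.sq (q := q) hu)
  have haw : a * w ^ 2 ≠ 0 := mul_ne_zero ha0 (pow_ne_zero _ hw)
  have hneg : hs q a (-(a * w ^ 2)) = 1 := by
    have : -(a * w ^ 2) = -a * w ^ 2 := by ring
    rw [this, hs_mul_LSq_right ha0 (neg_ne_zero.2 ha0) (LSq.sq hw), hs_neg_self ha0]
  by_cases hu : u = 0
  · simpa [hu] using hneg
  rcases lt_trichotomy (padicValRat q (u ^ 2)) (padicValRat q (a * w ^ 2)) with h1 | h1 | h1
  · have := (LSq.sq (q := q) hu).add (y := -(a * w ^ 2)) (Ge.neg (Ge.of_le (by omega)))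
    rw [sub_eq_add_neg]
    exact hs_of_LSq_right this
  · have h2 := (v_norm_le (w := w) ha hu).2
    have h3 : Ge q (padicValRat q (u ^ 2)) (u ^ 2 - a * w ^ 2) :=
      (Ge.self _).sub (Ge.of_le h1.le)
    have h4 := h3.le h
    rw [padicValRat.mul ha0 (pow_ne_zero _ hw), padicValRat.pow, padicValRat.pow] at h1
    rw [padicValRat.pow] at h4
    push_cast at h1 h4
    apply hs_even
    · exact ⟨padicValRat q u - padicValRat q w, by omega⟩
    · exact ⟨padicValRat q u, by omega⟩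
  · have h2 : Ge q (padicValRat q (-(a * w ^ 2)) + 1) (u ^ 2) := by
      rw [padicValRat.neg]; exact Ge.of_le (by omega)
    have h3 := v_add (neg_ne_zero.2 haw) h2
    have h4 := chi_add (neg_ne_zero.2 haw) h2
    have e : u ^ 2 - a * w ^ 2 = -(a * w ^ 2) + u ^ 2 := by ring
    rw [e, ← hneg]
    unfold hs
    rw [h3.2, h4]

/-- At a ramified prime the reduced norm has no cancellation against the trace part. -/
lemma v_nrd_le {d c x y z w : ℚ} (hd : d ≠ 0) (hc : c ≠ 0) (h : hs q d c = -1) (hx : x ≠ 0) :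
    x ^ 2 - d * y ^ 2 - c * (z ^ 2 - d * w ^ 2) ≠ 0 ∧
    padicValRat q (x ^ 2 - d * y ^ 2 - c * (z ^ 2 - d * w ^ 2)) ≤ 2 * padicValRat q x := by
  have hdn : ¬ LSq q d := by
    intro h1; rw [hs_of_LSq_left h1] at h; norm_num at h
  obtain ⟨h1, h2⟩ := v_norm_le (w := y) hdn hx
  set N₁ := x ^ 2 - d * y ^ 2 with hN₁
  set N₂ := z ^ 2 - d * w ^ 2 with hN₂
  by_contra hcon
  have h3 : Ge q (padicValRat q N₁ + 1) (N₁ - c * N₂) := by
    by_cases h0 : N₁ - c * N₂ = 0
    · exact Or.inl h0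
    right
    push Not at hcon
    have := hcon h0
    omega
  have h4 := v_add h1 h3.neg
  have h5 := chi_add h1 h3.neg
  have e : N₁ + -(N₁ - c * N₂) = c * N₂ := by ring
  rw [e] at h4 h5
  have hN2 : N₂ ≠ 0 := by intro h0; apply h4.1; simp [h0]
  have h6 : hs q d (c * N₂) = hs q d N₁ := by
    unfold hs
    rw [h4.2, h5]
  rw [hs_mul_right hd hc hN2, h, hs_norm hd hN2, hs_norm hd h1] at h6
  norm_num at h6

end Pool.Agent.MP_28f2cb_lc.H22
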