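import Pool.Agent.MP_28f2cb_lc.H22.Approx

/-! The two equations and the proof that together they define the non-integers. -/

namespace Pool.Agent.MP_28f2cb_lc.H22

lemma ge_one_of_odd {q : ℕ} [Fact q.Prime] {a : ℚ} (h : Odd (padicValRat q (a ^ 2 + 4))) :
    Ge q 1 (a ^ 2 + 4) := by
  by_cases h1 : 0 ≤ padicValRat q a
  · have h2 : Ge q 0 (a ^ 2 + 4) := by
      simpa using (Ge.of_le h1).sq.add (Ge.ofNat (q := q) 4)
    have h3 := h2.le (by positivity)
    obtain ⟨k, hk⟩ := h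
    exact Ge.of_le (by omega)
  · have ha : a ≠ 0 := by rintro rfl; simp at h1
    have h2 := (LSq.sq (q := q) ha).add (y := 4) ((Ge.ofNat (q := q) 4).mono (by
      rw [padicValRat.pow]; push_cast; omega))
    exact absurd h (Int.not_odd_iff_even.2 h2.2.1)

lemma U_M {m : ℚ} (hm : Ge 2 0 m) : U 2 (2 * m + 1) := by
  rw [add_comm]; exact U.one.add (ge2_two.mul_zero hm)

lemma five_of_U {a : ℚ} (ha : U 2 a) : Ge 2 3 (a ^ 2 + 4 - 5) := by
  have e : a ^ 2 + 4 - 5 = a ^ 2 - 1 := by ring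
  rw [e]; exact ha.sq_sub_one

lemma sound_one {M a t y z w d n : ℚ} (hM : ∀ q : ℕ, q.Prime → Ge q 0 M) (hM2 : U 2 M)
    (ha : U 2 a) (hd : d = a ^ 2 + 4) (hn : n = t ^ 2 + d * M * t + 1) :
    d + (4 * (n - 2) / (M * n)) ^ 2 ≠ d * y ^ 2 + 2 * n * (z ^ 2 - d * w ^ 2) := by
  intro h
  have hd5 : Ge 2 3 (d - 5) := hd ▸ five_of_U ha
  have hd0 : 0 < d := by rw [hd]; positivity
  have h1 := v2_quad U.one ((U.of_five hd5).mul hM2) U.one t
  rw [one_mul, ← hn] at h1
  have hn0 := h1.1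
  have hc0 : 2 * n ≠ 0 := mul_ne_zero two_ne_zero hn0
  have hc : Odd (padicValRat 2 (2 * n)) := by
    rw [padicValRat.mul two_ne_zero hn0, v2_two, h1.2]
    exact ⟨_, add_comm _ _⟩
  obtain ⟨q, hq, hq2, hs1⟩ : ∃ q : ℕ, q.Prime ∧ q ≠ 2 ∧ hs q d (2 * n) ≠ 1 := by
    by_contra hcon
    push Not at hcon
    exact not_isN_of_odd hd5 hc (legendre hd0.ne' hc0 (Or.inl hd0) hcon)
  have := Fact.mk hq
  have hs2 : hs q d (2 * n) = -1 := (hs_cases hd0.ne' hc0).resolve_left hs1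
  have hdn : ¬ LSq q d := fun h1 => hs1 (hs_of_LSq_left h1)
  have hcn : ¬ LSq q (2 * n) := fun h1 => hs1 (hs_of_LSq_right h1)
  have h2 : U q 2 := U.two hq2
  have hdI : Ge q 0 d := by
    by_cases h3 : 0 ≤ padicValRat q a
    · rw [hd]; simpa using (Ge.of_le h3).sq.add (Ge.ofNat (q := q) 4)
    · have ha0 := ha.1
      exact absurd (hd ▸ (LSq.sq (q := q) ha0).add (y := 4) ((Ge.ofNat (q := q) 4).mono (by
        rw [padicValRat.pow]; push_cast; omega))) hdn
  have h3 := v_norm_le (q := q) (u := 2) (w := 1) hcn two_ne_zero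
  have h4 := v_norm_le (q := q) (u := n) (w := 1) (a := 2 * n) hcn hn0
  have e3 : (2 : ℚ) ^ 2 - 2 * n * 1 ^ 2 = -(2 * (n - 2)) := by ring
  have e4 : n ^ 2 - 2 * n * 1 ^ 2 = n * (n - 2) := by ring
  rw [e3] at h3
  rw [e4] at h4
  have hn2 : n - 2 ≠ 0 := right_ne_zero_of_mul h4.1
  rw [padicValRat.neg, padicValRat.mul two_ne_zero hn2, h2.2] at h3
  rw [padicValRat.mul hn0 hn2] at h4
  have hG0 : 4 * (n - 2) / (M * n) ≠ 0 :=
    div_ne_zero (mul_ne_zero four_ne_zero hn2) (mul_ne_zero hM2.1 hn0)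
  have hvG : padicValRat q (4 * (n - 2) / (M * n)) =
      padicValRat q (n - 2) - padicValRat q M - padicValRat q n := by
    rw [padicValRat.div (mul_ne_zero four_ne_zero hn2) (mul_ne_zero hM2.1 hn0),
      padicValRat.mul four_ne_zero hn2, padicValRat.mul hM2.1 hn0, (U.four hq2).2]
    ring
  have h5 := (v_nrd_le (y := y) (z := z) (w := w) hd0.ne' hc0 hs2 hG0).2
  have e5 : (4 * (n - 2) / (M * n)) ^ 2 - d * y ^ 2 - 2 * n * (z ^ 2 - d * w ^ 2) = -d := by
    linarith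
  rw [e5, padicValRat.neg, hvG] at h5
  have h6 := hdI.le hd0.ne'
  have h7 := (hM q hq).le hM2.1
  have h8 : padicValRat q d = 0 := by omega
  have h9 : Odd (padicValRat q n) := by
    by_contra h9
    apply hs1
    apply hs_even (by rw [h8]; exact Even.zero)
    rw [padicValRat.mul two_ne_zero hn0, h2.2, zero_add]
    exact Int.not_odd_iff_even.1 h9
  obtain ⟨k, hk⟩ := h9
  by_cases ht : 0 ≤ padicValRat q t
  · have h10 : Ge q 0 n := by
      rw [hn]
      have := (Ge.of_le ht).sq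
      exact (this.add ((hdI.mul_zero (hM q hq)).mul_zero (Ge.of_le ht))).add Ge.one
    have := h10.le hn0
    omega
  · have ht0 : t ≠ 0 := by rintro rfl; simp at ht
    have h10 := v_add (q := q) (pow_ne_zero 2 ht0) (y := d * M * t + 1) (by
      rw [padicValRat.pow]
      push_cast
      exact (((hdI.mul_zero (hM q hq)).zero_mul (Ge.self t)).mono (by omega)).add
        (Ge.one.mono (by omega)))
    rw [← add_assoc, ← hn, padicValRat.pow] at h10
    have := h10.2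
    push_cast at this
    omega

lemma sound_two {R Y Z W : ℚ} (hR : Ge 2 0 R) :
    80 * R ^ 4 + 25 ≠ 5 * Y ^ 2 + 2 * (Z ^ 2 - 5 * W ^ 2) := by
  intro h
  have h5 : Ge 2 3 ((5 : ℚ) - 5) := Or.inl (by norm_num)
  have hU5 : U 2 5 := U.of_five h5
  obtain ⟨h1, h2, h3⟩ := v2_norm (u := 5) (w := Y) h5 (Or.inl (by norm_num))
  have h4 := h3 (by norm_num)
  rw [hU5.2] at h4
  have h6 : Ge 2 4 (80 * R ^ 4) := by
    have := (ge2_four.sq.mul_zero hU5.ge).mul_zero (show Ge 2 0 _ by simpa using hR.sq.sq)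
    have e : (80 : ℚ) * R ^ 4 = 4 ^ 2 * 5 * (R ^ 2) ^ 2 := by ring
    rw [e]; exact this
  have h7 := v_add h1 (h6.mono (by omega : padicValRat 2 (5 ^ 2 - 5 * Y ^ 2 : ℚ) + 1 ≤ 4))
  have e : 5 ^ 2 - 5 * Y ^ 2 + 80 * R ^ 4 = 2 * (Z ^ 2 - 5 * W ^ 2) := by linarith
  rw [e] at h7
  have h8 : Z ^ 2 - 5 * W ^ 2 ≠ 0 := right_ne_zero_of_mul h7.1
  have h9 : Z ≠ 0 ∨ W ≠ 0 := by
    by_contra h9
    push Not at h9
    apply h8; simp [h9.1, h9.2]
  obtain ⟨k, hk⟩ := (v2_norm h5 h9).2.1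
  obtain ⟨l, hl⟩ := h2
  rw [padicValRat.mul two_ne_zero h8, v2_two] at h7
  omega

lemma complete_two {m : ℚ} (hm : padicValRat 2 m < 0) :
    ∃ Y Z W : ℚ, 80 * (1 - 3 * m ^ 2) ^ 4 + 25 = 5 * Y ^ 2 + 2 * (Z ^ 2 - 5 * W ^ 2) := by
  have hp : Nat.Prime 5 := by norm_num
  have := Fact.mk hp
  have h5 : Ge 2 3 ((5 : ℚ) - 5) := Or.inl (by norm_num)
  have hm0 : m ≠ 0 := by rintro rfl; simp at hm
  have h3 : ¬ LSq 5 3 := by
    intro h
    have h1 := chi_int (q := 5) (u := 3) (by norm_num)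
    have h2 : jacobiSym 3 5 = -1 := by norm_num
    rw [h2] at h1
    have h4 := h.2.2
    push_cast at h1
    omega
  obtain ⟨hR0, hR5⟩ := v_norm_le (q := 5) (u := 1) (w := m) h3 one_ne_zero
  rw [one_pow] at hR0 hR5
  set R := 1 - 3 * m ^ 2 with hR
  have hU3 : U 2 3 := by simpa using U.int (q := 2) (z := 3) (by norm_num)
  have hR2 : padicValRat 2 R = 2 * padicValRat 2 m := by
    have h1 : padicValRat 2 (-(3 * m ^ 2)) = 2 * padicValRat 2 m := by
      rw [padicValRat.neg, padicValRat.mul hU3.1 (pow_ne_zero _ hm0), hU3.2, padicValRat.pow]; simp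
    have := v_add (q := 2) (x := -(3 * m ^ 2)) (y := 1)
      (neg_ne_zero.2 (mul_ne_zero hU3.1 (pow_ne_zero _ hm0))) (Ge.one.mono (by omega))
    rw [← h1, ← this.2, hR]
    congr 1; ring
  have hv5 : padicValRat 5 (5 : ℚ) = 1 := by exact_mod_cast v_self (q := 5)
  have hden : 4 * R ^ 2 ≠ 0 := mul_ne_zero four_ne_zero (pow_ne_zero _ hR0)
  obtain ⟨y, z, w, h⟩ := fin_step (d := 5) (c := 2) (G := 5 / (4 * R ^ 2)) hp (by norm_num)
    (by norm_num) h5 two_ne_zero
    (by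
      intro q hq hq2
      have := Fact.mk hq
      by_cases h1 : q = 5
      · subst h1
        rw [if_pos rfl, hs_comm, hs_even_odd (by rw [(U.two hq2).2]; exact Even.zero)
          (by rw [hv5]; exact odd_one)]
        have h1 := chi_int (q := 5) (u := 2) (by norm_num)
        have h2 : jacobiSym 2 5 = -1 := by norm_num
        rw [h2] at h1
        exact_mod_cast h1
      · rw [if_neg h1]
        have := hs_unit (prime_not_dvd hq hp h1) (prime_not_dvd hq Nat.prime_two hq2)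
        exact_mod_cast this)
    (by
      apply ((U.of_five h5).ge.div hden).mono
      rw [padicValRat.mul four_ne_zero (pow_ne_zero _ hR0), v2_four, padicValRat.pow, hR2]
      push_cast; omega)
    (by
      have h1 : Ge 5 1 (5 / (4 * R ^ 2)) := by
        apply ((Ge.of_le hv5.ge).div hden).mono
        rw [padicValRat.mul four_ne_zero (pow_ne_zero _ hR0), (U.four (by norm_num)).2,
          padicValRat.pow]
        simp only [padicValRat.one] at hR5
        push_cast; omega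
      apply (h1.sq.div (by norm_num)).mono
      rw [hv5]; norm_num)
  refine ⟨4 * R ^ 2 * y, 4 * R ^ 2 * z, 4 * R ^ 2 * w, ?_⟩
  field_simp at h
  linear_combination h

lemma exists_nonsquare_add_four (p : ℕ) [hp : Fact p.Prime] (hp2 : p ≠ 2) :
    ∃ s : ZMod p, ¬ IsSquare (s ^ 2 + 4) := by
  by_contra hcon
  push Not at hcon
  have h1 : ∀ k : ℕ, IsSquare ((k : ZMod p) * 4) := by
    intro k
    induction k with
    | zero => exact ⟨0, by simp⟩
    | succ k ih =>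
      obtain ⟨r, hr⟩ := ih
      have := hcon r
      have e : ((k + 1 : ℕ) : ZMod p) * 4 = r ^ 2 + 4 := by push_cast; linear_combination hr
      rwa [e]
  obtain ⟨a, ha⟩ := FiniteField.exists_nonsquare (F := ZMod p) (by rwa [ZMod.ringChar_zmod_n])
  have h2 : (2 : ZMod p) ≠ 0 := by
    intro h
    have : ((2 : ℤ) : ZMod p) = 0 := by exact_mod_cast h
    rw [ZMod.intCast_zmod_eq_zero_iff_dvd] at this
    exact prime_not_dvd hp.1 Nat.prime_two hp2 this
  have h4 : (4 : ZMod p) ≠ 0 := by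
    have : (4 : ZMod p) = 2 * 2 := by norm_num
    rw [this]; exact mul_ne_zero h2 h2
  have := h1 (a / 4).val
  rw [ZMod.natCast_zmod_val, div_mul_cancel₀ _ h4] at this
  exact ha this

lemma exists_s {m : ℚ} (p : ℕ) [hp : Fact p.Prime] (hp2 : p ≠ 2) :
    ∃ s : ℤ, jacobiSym (s ^ 2 + 4) p = -1 ∧
      ∀ q : ℕ, q.Prime → q ≠ p → padicValRat q m < 0 → (q : ℤ) ∣ s := by
  obtain ⟨s₀, hs₀⟩ := exists_nonsquare_add_four p hp2
  obtain ⟨k, r, hr, hkr⟩ := Nat.exists_eq_pow_mul_and_not_dvd m.den_nz p hp.1.ne_one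
  have hr0 : (r : ZMod p) ≠ 0 := by rwa [Ne, ZMod.natCast_eq_zero_iff]
  refine ⟨r * (s₀ / r).val, ?_, ?_⟩
  · rw [ZMod.nonsquare_iff_jacobiSym_eq_neg_one]
    push_cast
    rw [ZMod.natCast_zmod_val, mul_div_cancel₀ _ hr0]
    exact hs₀
  · intro q hq hqp hv
    have h1 : q ∣ m.den := by
      by_contra h1
      rcases Ge.of_not_dvd_den h1 with h2 | h2
      · simp [h2] at hv
      · omega
    rw [hkr] at h1
    rcases (Nat.Prime.dvd_mul hq).1 h1 with h2 | h2
    · exact absurd ((Nat.prime_dvd_prime_iff_eq hq hp.1).1 (hq.dvd_of_dvd_pow h2)) hqp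
    · exact Dvd.dvd.mul_right (by exact_mod_cast h2) _

lemma v_M {q : ℕ} [Fact q.Prime] (hq2 : q ≠ 2) {m : ℚ} (hm : padicValRat q m < 0) :
    padicValRat q (2 * m + 1) = padicValRat q m := by
  have hm0 : m ≠ 0 := by rintro rfl; simp at hm
  have h1 : padicValRat q (2 * m) = padicValRat q m := by
    rw [padicValRat.mul two_ne_zero hm0, (U.two hq2).2, zero_add]
  rw [(v_add (q := q) (mul_ne_zero two_ne_zero hm0) (y := 1) (Ge.one.mono (by omega))).2, h1]

/-- At a pole of `M` the parameter `d` is congruent to `s^2 + 4`. -/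
lemma d_congr {q : ℕ} [Fact q.Prime] {M s : ℚ} (hM : padicValRat q M < 0) (hs : Ge q 0 s) :
    Ge q 1 (((s ^ 2 + M * s + 1) / (s ^ 2 + s + M)) ^ 2 + 4 - (s ^ 2 + 4)) := by
  have hM0 : M ≠ 0 := by rintro rfl; simp at hM
  have hs2 : Ge q 0 (s ^ 2) := by simpa using hs.sq
  have h1 := v_add hM0 (y := s ^ 2 + s) ((hs2.add hs).mono (by omega))
  have e1 : M + (s ^ 2 + s) = s ^ 2 + s + M := by ring
  rw [e1] at h1
  have h2 : Ge q 1 ((1 - s ^ 2 * s) / (s ^ 2 + s + M)) :=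
    ((Ge.one.sub (hs2.mul_zero hs)).div h1.1).mono (by omega)
  have h3 := h2.mul_zero ((h2.mono (by norm_num)).add (hs.add hs))
  have := h1.1
  have e : (1 - s ^ 2 * s) / (s ^ 2 + s + M) * ((1 - s ^ 2 * s) / (s ^ 2 + s + M) + (s + s)) =
      ((s ^ 2 + M * s + 1) / (s ^ 2 + s + M)) ^ 2 + 4 - (s ^ 2 + 4) := by
    have e2 : (s ^ 2 + M * s + 1) / (s ^ 2 + s + M) = (1 - s ^ 2 * s) / (s ^ 2 + s + M) + s := by
      rw [div_add' _ _ _ this]; congr 1; ring
    rw [e2]; ring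
  rwa [e] at h3

lemma U_a {M : ℚ} (hM : U 2 M) (s : ℚ) :
    s ^ 2 + s + M ≠ 0 ∧ U 2 ((s ^ 2 + M * s + 1) / (s ^ 2 + s + M)) := by
  have h1 := v2_quad U.one hM U.one s
  have h2 := v2_quad U.one U.one hM s
  simp only [one_mul] at h1 h2
  exact ⟨h2.1, div_ne_zero h1.1 h2.1, by rw [padicValRat.div h1.1 h2.1, h1.2, h2.2, sub_self]⟩

lemma complete_one {m M : ℚ} (hM : M = 2 * m + 1) (hm : Ge 2 0 m) {p : ℕ} (hp : p.Prime)
    (hp2 : p ≠ 2) (hpm : padicValRat p m < 0) :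
    ∃ s t y z w d n : ℚ, d = ((s ^ 2 + M * s + 1) / (s ^ 2 + s + M)) ^ 2 + 4 ∧
      n = t ^ 2 + d * M * t + 1 ∧ n ≠ 0 ∧
      d + (4 * (n - 2) / (M * n)) ^ 2 = d * y ^ 2 + 2 * n * (z ^ 2 - d * w ^ 2) := by
  have := Fact.mk hp
  obtain ⟨s, hs1, hs2⟩ := exists_s (m := m) p hp2
  have hM2 : U 2 M := hM ▸ U_M hm
  set a := ((s : ℚ) ^ 2 + M * s + 1) / ((s : ℚ) ^ 2 + s + M) with ha
  have haU : U 2 a := (U_a hM2 s).2
  set d := a ^ 2 + 4 with hd
  have hd5 : Ge 2 3 (d - 5) := five_of_U haU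
  have hd0 : 0 < d := by positivity
  have hpM : padicValRat p M < 0 := by rw [hM, v_M hp2 hpm]; exact hpm
  have hsp : ¬ (p : ℤ) ∣ s ^ 2 + 4 := by
    intro h
    rw [jacobiSym.mod_left, Int.emod_eq_zero_of_dvd h, jacobiSym.zero_left hp.one_lt] at hs1
    omega
  have hsU : U p ((s : ℚ) ^ 2 + 4) := by simpa using U.int hsp
  have hdc := d_congr hpM (Ge.int (q := p) s)
  have edp : (s : ℚ) ^ 2 + 4 + (d - ((s : ℚ) ^ 2 + 4)) = d := by ring
  have hdp : U p d := edp ▸ hsU.add hdc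
  have hdchi : chi p d = -1 := by
    rw [← edp, chi_add hsU.1 (by rw [hsU.2]; exact hdc), ← hs1, ← chi_int hsp]
    push_cast; rfl
  have hdq : ∀ q : ℕ, q.Prime → q ≠ 2 → q ≠ p → padicValRat q m < 0 → U q d := by
    intro q hq hq2 hqp hqm
    have := Fact.mk hq
    have h1 := d_congr (q := q) (M := M) (by rw [hM, v_M hq2 hqm]; exact hqm) (Ge.int (q := q) s)
    have h2 := Ge.of_dvd (hs2 q hq hqp hqm)
    have h3 := (U.four hq2).add ((h2.mul_zero (Ge.int s)).add h1)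
    have e : 4 + ((s : ℚ) * s + (d - ((s : ℚ) ^ 2 + 4))) = d := by ring
    rwa [e] at h3
  have hdM : U 2 (d * M) := (U.of_five hd5).mul hM2
  have hdMp : padicValRat p (d * M) = padicValRat p M := by
    rw [padicValRat.mul hd0.ne' hM2.1, hdp.2, zero_add]
  have hep : LSq p ((d * M) ^ 2 + -4) ∧ padicValRat p ((d * M) ^ 2 + -4) < 0 := by
    have h1 : Ge p (padicValRat p ((d * M) ^ 2) + 1) (-4) :=
      (Ge.ofNat (q := p) 4).neg.mono (by rw [padicValRat.pow, hdMp]; push_cast; omega)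
    refine ⟨(LSq.sq hdM.1).add h1, ?_⟩
    rw [(v_add (pow_ne_zero _ hdM.1) h1).2, padicValRat.pow, hdMp]
    push_cast; omega
  obtain ⟨y, hy, -, hyd, X, Y, hXY⟩ := two_step (b := (d * M) ^ 2 + -4) (β := 2) hp hp2 hd0 hd5
    (by
      have := (hdM.sq_sub_one.mono (by norm_num : (2 : ℤ) ≤ 3)).sub ge2_four
      have e : (d * M) ^ 2 - 1 - 4 = (d * M) ^ 2 + -4 - 1 := by ring
      rwa [e] at this)
    two_pos (Or.inr (by rw [v2_two]; exact odd_one))
    (by
      intro q hq hq2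
      have := Fact.mk hq
      by_cases hqp : q = p
      · subst hqp
        refine ⟨q, q_ne, ?_, hs_of_LSq_left hep.1⟩
        rw [if_pos rfl, hs_even_odd (by rw [hdp.2]; exact Even.zero)
          (by rw [v_self]; exact odd_one), hdchi]
      rw [if_neg hqp]
      have h2 : Even (padicValRat q (2 : ℚ)) := by rw [(U.two hq2).2]; exact Even.zero
      by_cases h1 : Odd (padicValRat q d)
      · refine ⟨1, one_ne_zero, hs_of_LSq_right LSq.one, ?_⟩
        rw [one_mul]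
        apply hs_even _ h2
        have h3 : Ge q 0 m := by
          apply Ge.of_le
          by_contra h3
          rw [(hdq q hq hq2 hqp (by omega)).2] at h1
          simp at h1
        have h4 : Ge q 0 M := hM ▸ ((Ge.ofNat (q := q) 2).mul_zero h3).add Ge.one
        have h5 := (U.four hq2).neg.add
          ((((ge_one_of_odd h1).mul_zero h4).sq).mono (by norm_num))
        rw [add_comm, h5.2]
        exact Even.zero
      · refine ⟨2, two_ne_zero, hs_even (Int.not_odd_iff_even.1 h1) h2, ?_⟩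
        rw [← pow_two]
        exact hs_of_LSq_right (LSq.sq two_ne_zero))
  have hyp : Odd (padicValRat p (y * 2)) := by
    rw [padicValRat.mul hy.ne' two_ne_zero, (U.two hp2).2, add_zero]
    by_contra h1
    have h2 := hyd p hp hp2
    rw [hs_even (by rw [hdp.2]; exact Even.zero) (Int.not_odd_iff_even.1 h1)] at h2
    simp at h2
  have hY : Y ≠ 0 := by
    intro h0
    have e : y * 2 = X ^ 2 := by simp [hXY, h0]
    rw [e, padicValRat.pow] at hyp
    exact Int.not_odd_iff_even.2 (even_two_mul _) hyp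
  obtain ⟨X', W, hW, hX', hv⟩ := shrink hp2 (κ := y * 2 / Y ^ 2) (X := X / Y)
    (e := (d * M) ^ 2 + -4)
    (by
      rw [padicValRat.div (mul_ne_zero hy.ne' two_ne_zero) (pow_ne_zero _ hY), padicValRat.pow]
      exact hyp.sub_even (even_two_mul _))
    (by rw [hXY]; field_simp; ring) hep.2
  set t := (X' - d * M) / 2 with ht
  set n := t ^ 2 + d * M * t + 1 with hn
  have en : y * 2 / Y ^ 2 * W ^ 2 = 4 * n := by rw [hn, ht]; linarith
  have ec : 2 * n = y * (W / Y) ^ 2 := by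
    have : 2 * n = (y * 2 / Y ^ 2 * W ^ 2) / 2 := by rw [en]; ring
    rw [this]; field_simp
  have h1 := v2_quad U.one hdM U.one t
  rw [one_mul, ← hn] at h1
  have hn0 := h1.1
  rw [en, padicValRat.mul four_ne_zero hn0, (U.four hp2).2, zero_add] at hv
  have eG : 4 * (n - 2) / (M * n) = 4 * (1 - 2 / n) / M := by
    have := hM2.1
    field_simp
  obtain ⟨y', z', w', h⟩ := fin_step (c := 2 * n) (G := 4 * (n - 2) / (M * n)) hp hp2 hd0 hd5
    (mul_ne_zero two_ne_zero hn0)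
    (by
      intro q hq hq2
      have := Fact.mk hq
      rw [ec, hs_mul_LSq_right hd0.ne' hy.ne' (LSq.sq (div_ne_zero hW hY)), hyd q hq hq2])
    (by
      rw [eG]
      have h2 : Ge 2 0 (2 / n) := (ge2_two.div hn0).mono (by rw [h1.2]; omega)
      exact (ge2_four.mul_zero (Ge.one.sub h2)).div_U hM2)
    (by
      rw [eG]
      have h2 : Ge p 0 (2 / n) := ((Ge.ofNat (q := p) 2).div hn0).mono (by omega)
      have h3 : Ge p 1 (4 * (1 - 2 / n) / M) :=
        (((Ge.ofNat (q := p) 4).mul_zero (Ge.one.sub h2)).div hM2.1).mono (by omega)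
      exact (h3.sq.div_U hdp).mono (by norm_num))
  exact ⟨s, t, y', z', w', d, n, rfl, rfl, hn0, h⟩

/-- The main polynomial, for poles at odd primes. -/
def P₁ {R : Type} [CommRing R] (m s t Y Z W : R) : R :=
  let M := 2 * m + 1
  let A := s ^ 2 + M * s + 1
  let B := s ^ 2 + s + M
  let D := A ^ 2 + 4 * B ^ 2
  let N := B ^ 2 * t ^ 2 + D * M * t + B ^ 2
  D * M ^ 2 * N ^ 2 + 16 * B ^ 2 * (N - 2 * B ^ 2) ^ 2 - D * Y ^ 2 - 2 * N * (Z ^ 2 - D * W ^ 2)

/-- The polynomial for poles at 2. -/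
def P₂ {R : Type} [CommRing R] (m Y Z W : R) : R :=
  80 * (1 - 3 * m ^ 2) ^ 4 + 25 - 5 * Y ^ 2 - 2 * (Z ^ 2 - 5 * W ^ 2)

lemma alg_back {M B d n Y Z W : ℚ} (hM : M ≠ 0) (hB : B ≠ 0) (hn : n ≠ 0)
    (h : d * B ^ 2 * M ^ 2 * (n * B ^ 2) ^ 2 + 16 * B ^ 2 * (n * B ^ 2 - 2 * B ^ 2) ^ 2 -
      d * B ^ 2 * Y ^ 2 - 2 * (n * B ^ 2) * (Z ^ 2 - d * B ^ 2 * W ^ 2) = 0) :
    d + (4 * (n - 2) / (M * n)) ^ 2 = d * (Y / (M * n * B ^ 2)) ^ 2 +
      2 * n * ((Z / (M * n * B ^ 2)) ^ 2 - d * (W / (M * n * B)) ^ 2) := by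
  have h2 : d * M ^ 2 * (n * B ^ 2) ^ 2 + 16 * (n * B ^ 2 - 2 * B ^ 2) ^ 2 -
      d * Y ^ 2 - 2 * n * (Z ^ 2 - d * B ^ 2 * W ^ 2) = 0 := by
    apply mul_left_cancel₀ (pow_ne_zero 2 hB)
    linear_combination h
  field_simp
  linear_combination h2

theorem not_int_iff (m : ℚ) :
    (¬ ∃ k : ℤ, (k : ℚ) = m) ↔ ∃ s t Y Z W : ℚ, P₁ m s t Y Z W * P₂ m Y Z W = 0 := by
  constructor
  · intro h
    by_cases h2 : padicValRat 2 m < 0
    · obtain ⟨Y, Z, W, h3⟩ := complete_two h2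
      refine ⟨0, 0, Y, Z, W, mul_eq_zero_of_right _ ?_⟩
      unfold P₂
      linarith
    have hm : Ge 2 0 m := Ge.of_le (by omega)
    have hden : m.den ≠ 1 := fun h1 => h ⟨m.num, (Rat.den_eq_one_iff m).1 h1⟩
    obtain ⟨p, hp, hpd⟩ := Nat.exists_prime_and_dvd hden
    have := Fact.mk hp
    have hpm : padicValRat p m < 0 := by
      by_contra h3
      exact not_dvd_den (q := p) (Ge.of_le (not_lt.1 h3)) (by exact_mod_cast hpd)
    have hp2 : p ≠ 2 := by rintro rfl; exact h2 hpm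
    obtain ⟨s, t, y, z, w, d, n, hd, hn, hn0, h3⟩ := complete_one rfl hm hp hp2 hpm
    have hM := (U_M hm).1
    have hB := (U_a (U_M hm) s).1
    set M := 2 * m + 1 with hMdef
    set B := s ^ 2 + s + M with hBdef
    set A := s ^ 2 + M * s + 1 with hAdef
    have eD : A ^ 2 + 4 * B ^ 2 = d * B ^ 2 := by rw [hd]; field_simp
    have eN : B ^ 2 * t ^ 2 + d * B ^ 2 * M * t + B ^ 2 = n * B ^ 2 := by rw [hn]; ring
    refine ⟨s, t, M * n * B ^ 2 * y, M * n * B ^ 2 * z, M * n * B * w, mul_eq_zero_of_left ?_ _⟩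
    unfold P₁
    simp only [← hMdef, ← hBdef, ← hAdef, eD, eN]
    field_simp at h3
    linear_combination B ^ 6 * h3
  · rintro ⟨s, t, Y, Z, W, h⟩ ⟨k, rfl⟩
    rcases mul_eq_zero.1 h with h | h
    · have hM2 := U_M (Ge.int (q := 2) k)
      obtain ⟨hB, ha⟩ := U_a hM2 s
      have hM := hM2.1
      unfold P₁ at h
      set M : ℚ := 2 * k + 1 with hMdef
      set B := s ^ 2 + s + M with hBdef
      set A := s ^ 2 + M * s + 1 with hAdef
      set d := (A / B) ^ 2 + 4 with hd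
      set n := t ^ 2 + d * M * t + 1 with hn
      have h1 := v2_quad U.one ((U.of_five (five_of_U ha)).mul hM2) U.one t
      rw [one_mul, ← hn] at h1
      have hn0 := h1.1
      have eD : A ^ 2 + 4 * B ^ 2 = d * B ^ 2 := by rw [hd]; field_simp
      have eN : B ^ 2 * t ^ 2 + d * B ^ 2 * M * t + B ^ 2 = n * B ^ 2 := by rw [hn]; ring
      simp only [← hBdef, ← hAdef, eD, eN] at h
      apply sound_one (M := M) (y := Y / (M * n * B ^ 2)) (z := Z / (M * n * B ^ 2))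
        (w := W / (M * n * B)) _ hM2 ha hd hn
      · exact alg_back hM hB hn0 h
      · intro q hq
        have := Ge.int (q := q) (2 * k + 1)
        push_cast at this
        exact this
    · have h1 := Ge.int (q := 2) (1 - 3 * k ^ 2)
      push_cast at h1
      apply sound_two (Y := Y) (Z := Z) (W := W) h1
      unfold P₂ at h
      linarith

end Pool.Agent.MP_28f2cb_lc.H22
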