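import Pool.Agent.MP_28f2cb_lc.H22.Main
import Pool.Agent.MP_28f2cb_lc.H85.HD

/-! A definition of the integers in the rationals with one universal and four existential
quantifiers. -/

namespace Pool.Agent.MP_28f2cb_lc.H22U

open Pool.Agent.MP_28f2cb_lc.H85
open Pool.Agent.MP_28f2cb_lc.H22 (Ge U v_add v2_two v2_four v_self v_int q_ne)

lemma V_zero {p : ℕ} {a : ℚ} : V p a = 0 ↔ Even (padicValRat p a) := by
  unfold V
  rw [ZMod.intCast_zmod_eq_zero_iff_dvd, even_iff_two_dvd]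
  rfl

lemma V_one {p : ℕ} {a : ℚ} : V p a = 1 ↔ Odd (padicValRat p a) := by
  rw [← Int.not_even_iff_odd, ← V_zero]
  rcases z2c (V p a) with h | h <;> simp [h]

section
variable {p : ℕ} [hp : Fact p.Prime]

lemma sqP_add (h2 : p ≠ 2) {x y : ℚ} (hx0 : x ≠ 0) (hx : SqP p x)
    (hy : Ge p (padicValRat p x + 1) y) : SqP p (x + y) := by
  have h1 : Ge p 1 (y / x) := (hy.div hx0).mono (by omega)
  have e : x + y = x * (1 + y / x) := by field_simp
  rw [e]
  exact SqP.mul p hx0 (one_add_ne p h1) hx (sqP_one_add_odd p h2 h1)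

lemma sqP_add3 {x y : ℚ} (hx0 : x ≠ 0) (hx : SqP p x)
    (hy : Ge p (padicValRat p x + 3) y) : SqP p (x + y) := by
  have h1 : Ge p 3 (y / x) := (hy.div hx0).mono (by omega)
  have e : x + y = x * (1 + y / x) := by field_simp
  rw [e]
  exact SqP.mul p hx0 (one_add_ne p (h1.mono (by norm_num))) hx (sqP_one_add p h1)

/-- no cancellation against an element of odd valuation -/
lemma aniso_odd {c : ℚ} (hc : Odd (padicValRat p c)) (u : ℚ) :
    u ^ 2 - c ≠ 0 ∧ padicValRat p (u ^ 2 - c) ≤ padicValRat p c ∧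
      (u ≠ 0 → padicValRat p (u ^ 2 - c) ≤ 2 * padicValRat p u) := by
  have hc0 : c ≠ 0 := by rintro rfl; simp at hc
  by_cases hu : u = 0
  · simp [hu, hc0]
  obtain ⟨k, hk⟩ := hc
  have h2 : padicValRat p (u ^ 2) = 2 * padicValRat p u := by rw [padicValRat.pow]; simp
  by_cases h : 2 * padicValRat p u < padicValRat p c
  · have := v_add (q := p) (pow_ne_zero 2 hu) (y := -c) (H22.Ge.neg (H22.Ge.of_le (by omega)))
    rw [← sub_eq_add_neg] at this
    exact ⟨this.1, by omega, fun _ => by omega⟩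
  · have := v_add (q := p) (neg_ne_zero.2 hc0) (y := u ^ 2)
      (H22.Ge.of_le (by rw [padicValRat.neg]; omega))
    rw [neg_add_eq_sub, padicValRat.neg] at this
    exact ⟨this.1, by omega, fun _ => by omega⟩

/-- no cancellation against a local non-square -/
lemma aniso (h2 : p ≠ 2) {c : ℚ} (hc0 : c ≠ 0) (hc : ¬ SqP p c) (u : ℚ) :
    u ^ 2 - c ≠ 0 ∧ padicValRat p (u ^ 2 - c) ≤ padicValRat p c ∧
      (u ≠ 0 → padicValRat p (u ^ 2 - c) ≤ 2 * padicValRat p u) := by
  by_cases hu : u = 0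
  · simp [hu, hc0]
  have h3 : padicValRat p (u ^ 2) = 2 * padicValRat p u := by rw [padicValRat.pow]; simp
  have key : ¬ Ge p (2 * padicValRat p u + 1) (u ^ 2 - c) := by
    intro h
    have := sqP_add h2 (pow_ne_zero 2 hu) (sqP_sq p hu) (y := -(u ^ 2 - c)) (by rw [h3]; exact h.neg)
    apply hc
    convert this using 1; ring
  have h4 : u ^ 2 - c ≠ 0 := fun h => key (Or.inl h)
  have h5 : padicValRat p (u ^ 2 - c) ≤ 2 * padicValRat p u := by
    by_contra h; exact key (H22.Ge.of_le (by omega))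
  refine ⟨h4, ?_, fun _ => h5⟩
  by_contra h
  have := v_add (q := p) hc0 (y := u ^ 2 - c) (H22.Ge.of_le (by omega))
  rw [add_sub_cancel, h3] at this
  omega

lemma v5_le : padicValRat p (5 : ℚ) ≤ 1 ∧ 0 ≤ padicValRat p (5 : ℚ) := by
  by_cases h : p = 5
  · subst h
    have : padicValRat 5 (5 : ℚ) = 1 := by exact_mod_cast v_self (q := 5)
    omega
  · have := val_prime hp.1 (by norm_num : Nat.Prime 5) h
    push_cast at this
    omega

/-- valuation of a monic polynomial with constant term one when `c` is not a unit -/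
lemma v_quad {c : ℚ} (hc : padicValRat p c ≠ 0) {β : ℚ} (hβ : Ge p 0 β) :
    c ^ 2 + β * c + 1 ≠ 0 ∧ padicValRat p (c ^ 2 + β * c + 1) = 2 * min 0 (padicValRat p c) := by
  have hc0 : c ≠ 0 := by rintro rfl; simp at hc
  have h2 : padicValRat p (c ^ 2) = 2 * padicValRat p c := by rw [padicValRat.pow]; simp
  rcases lt_or_gt_of_ne hc with h | h
  · have := v_add (q := p) (pow_ne_zero 2 hc0) (y := β * c + 1) (by
      rw [h2]
      exact ((hβ.zero_mul (H22.Ge.self c)).mono (by omega)).add (H22.Ge.one.mono (by omega)))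
    rw [← add_assoc, h2] at this
    rw [min_eq_right h.le]
    exact this
  · have := H22.U.one.add (q := p) (y := c ^ 2 + β * c)
      ((H22.Ge.of_le (by omega)).add ((hβ.zero_mul (H22.Ge.self c)).mono (by omega)))
    rw [add_comm] at this
    rw [min_eq_left h.le]
    exact this

lemma ge_quad (c : ℚ) {β : ℚ} (hβ : Ge p 0 β) :
    Ge p (2 * min 0 (padicValRat p c)) (c ^ 2 + β * c + 1) := by
  have h1 : Ge p (min 0 (padicValRat p c)) c := H22.Ge.of_le (min_le_right _ _)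
  have h2 := min_le_left 0 (padicValRat p c)
  exact (h1.sq.add ((hβ.zero_mul h1).mono (by omega))).add (H22.Ge.one.mono (by omega))

omit hp in
lemma ge_m1 : Ge p 0 (-1 : ℚ) := H22.Ge.one.neg

/-- Moving a solution of `X^2 - κ W^2 = e` so that `κ W^2` is not smaller than `e`. -/
lemma shrink_even (hp2 : p ≠ 2) {e κ X : ℚ} (hκ : Even (padicValRat p κ)) (hκ0 : κ ≠ 0)
    (hns : ∀ r : ℚ, r ^ 2 ≠ κ) (he0 : e ≠ 0) (hX : X ^ 2 - κ = e) :
    ∃ X' W : ℚ, W ≠ 0 ∧ X' ^ 2 - κ * W ^ 2 = e ∧ padicValRat p (κ * W ^ 2) ≤ padicValRat p e := by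
  by_cases h : padicValRat p κ ≤ padicValRat p e
  · exact ⟨X, 1, one_ne_zero, by simpa using hX, by simpa using h⟩
  obtain ⟨k, hk⟩ := hκ
  have h1 := v_add (q := p) he0 (y := κ) (H22.Ge.of_le (by omega))
  have e1 : e + κ = X ^ 2 := by linarith
  rw [e1, padicValRat.pow] at h1
  have hX0 : X ≠ 0 := by intro h0; apply h1.1; simp [h0]
  have h2 := h1.2
  push_cast at h2
  set r : ℚ := (p : ℚ) ^ k with hr
  have hr0 : r ≠ 0 := zpow_ne_zero _ q_ne
  have hvr : padicValRat p r = k := by rw [hr, padicValRat.zpow, v_self, mul_one]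
  have hvr2 : padicValRat p (r ^ 2) = 2 * k := by rw [padicValRat.pow, hvr]; norm_num
  have h30 : r ^ 2 - κ ≠ 0 := sub_ne_zero.2 (hns r)
  have h3 : 2 * k ≤ padicValRat p (r ^ 2 - κ) :=
    ((H22.Ge.of_le hvr2.ge).sub (H22.Ge.of_le (by omega))).le h30
  have h40 : 2 * r * X ≠ 0 := mul_ne_zero (mul_ne_zero two_ne_zero hr0) hX0
  have h4 : padicValRat p (2 * r * X) = k + padicValRat p X := by
    rw [padicValRat.mul (mul_ne_zero two_ne_zero hr0) hX0, padicValRat.mul two_ne_zero hr0,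
      (H22.U.two hp2).2, hvr, zero_add]
  have h5 := v_add (q := p) h40 (y := r ^ 2 + κ)
    ((H22.Ge.of_le (by omega)).add (H22.Ge.of_le (by omega)))
  have hW := div_ne_zero h5.1 h30
  refine ⟨(X * (r ^ 2 + κ) + 2 * r * κ) / (r ^ 2 - κ), (2 * r * X + (r ^ 2 + κ)) / (r ^ 2 - κ),
    hW, ?_, ?_⟩
  · rw [← hX]; field_simp; ring
  · rw [padicValRat.mul hκ0 (pow_ne_zero _ hW), padicValRat.pow, padicValRat.div h5.1 h30, h5.2,
      h4]
    push_cast
    omega

end

/-- the constant of the norm form -/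
def ee {R : Type} [CommRing R] (c : R) : R := c - 16 * (c ^ 2 + -1 * c + 1)

/-- the second slot of the algebra -/
def dd {R : Type} [CommRing R] (c s : R) : R := 5 * (s ^ 2 - ee c)

/-- numerator of the trace -/
def nn {R : Type} [CommRing R] (x c s : R) : R := (x ^ 2 - c) ^ 2 * c ^ 2 * (s ^ 2 - c)

/-- denominator of the trace -/
def mm {R : Type} [CommRing R] (c s : R) : R := dd c s * (c ^ 2 + 0 * c + 1) ^ 3

lemma ee_neg (c : ℚ) : ee c < 0 := by unfold ee; nlinarith [sq_nonneg (32 * c - 17)]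

lemma sub_ee_pos (c s : ℚ) : 0 < s ^ 2 - ee c := by have := ee_neg c; nlinarith [sq_nonneg s]

lemma dd_pos (c s : ℚ) : 0 < dd c s := mul_pos (by norm_num) (sub_ee_pos c s)

lemma quad_pos (c : ℚ) : 0 < c ^ 2 + 0 * c + 1 := by nlinarith [sq_nonneg c]

lemma mm_pos (c s : ℚ) : 0 < mm c s := mul_pos (dd_pos c s) (pow_pos (quad_pos c) 3)

lemma v_G {p : ℕ} [Fact p.Prime] {x c s : ℚ} (h1 : x ^ 2 - c ≠ 0) (h2 : c ≠ 0)
    (h3 : s ^ 2 - c ≠ 0) : nn x c s / mm c s ≠ 0 ∧ padicValRat p (nn x c s / mm c s) =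
      2 * padicValRat p (x ^ 2 - c) + 2 * padicValRat p c + padicValRat p (s ^ 2 - c) -
        (padicValRat p (5 : ℚ) + padicValRat p (s ^ 2 - ee c) +
          3 * padicValRat p (c ^ 2 + 0 * c + 1)) := by
  have h4 : nn x c s ≠ 0 := mul_ne_zero (mul_ne_zero (pow_ne_zero _ h1) (pow_ne_zero _ h2)) h3
  refine ⟨div_ne_zero h4 (mm_pos c s).ne', ?_⟩
  rw [padicValRat.div h4 (mm_pos c s).ne', nn, mm,
    padicValRat.mul (mul_ne_zero (pow_ne_zero _ h1) (pow_ne_zero _ h2)) h3,
    padicValRat.mul (pow_ne_zero _ h1) (pow_ne_zero _ h2),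
    padicValRat.mul (dd_pos c s).ne' (pow_ne_zero _ (quad_pos c).ne'), dd,
    padicValRat.mul (by norm_num) (sub_ee_pos c s).ne', padicValRat.pow, padicValRat.pow,
    padicValRat.pow]
  push_cast; ring

lemma ge16 : Ge 2 4 16 := by
  have := H22.ge2_four.sq
  norm_num at this
  exact this

lemma hs_two {c : ℚ} (hc : padicValRat 2 c = 1) (s : ℚ) : hs 2 (dd c s) c = 1 := by
  have hc0 : c ≠ 0 := by rintro rfl; simp at hc
  have h1 : Ge 2 3 (-(16 * (c ^ 2 + -1 * c + 1)) / c) := by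
    have := ge_quad (p := 2) c ge_m1
    rw [hc] at this
    exact ((ge16.mul this).neg.div hc0).mono (by rw [hc]; norm_num)
  have e : ee c = c * (1 + -(16 * (c ^ 2 + -1 * c + 1)) / c) := by
    unfold ee; field_simp; ring
  have h2 := hs_norm 2 (d := ee c) (z := s) (w := 1) (ee_neg c).ne
    (by simpa using (sub_ee_pos c s).ne')
  rw [one_pow, mul_one] at h2
  have h3 : hs 2 c (s ^ 2 - ee c) = 0 := by rw [← h2, ← hs_approx 2 hc0 h1, ← e]
  have h5 : V 2 (5 : ℚ) = 0 := by simpa using V_int 2 (m := 5) (by norm_num)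
  have h6 : E 5 = 0 := by
    have := E_int (m := 5) (by norm_num)
    push_cast at this; rw [this]; decide
  have h7 : W 5 = 1 := by
    have := W_int (m := 5) (by norm_num)
    push_cast at this; rw [this]; decide
  rw [dd, hs_mul_left 2 _ (by norm_num) (sub_ee_pos c s).ne', hs_comm 2 (s ^ 2 - ee c), h3]
  simp [hs, h5, h6, h7, V_one.2 (show Odd (padicValRat 2 c) by rw [hc]; exact odd_one)]

/-- The main equation fails for a suitable value of the universal parameter. -/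
lemma refute {x : ℚ} {p r : ℕ} (hp : p.Prime) (hr : r.Prime) (hr2 : r ≠ 2) (hpr : p = 2 ∨ p = r)
    (hx : padicValRat p x < 0) (s y z w : ℚ) :
    2 * (r : ℚ) + (nn x (2 * (r : ℚ)) s / mm (2 * (r : ℚ)) s) ^ 2 ≠
      dd (2 * (r : ℚ)) s * y ^ 2 + 2 * r * z ^ 2 - dd (2 * (r : ℚ)) s * (2 * r) * w ^ 2 := by
  intro h
  have hr0 : (0 : ℚ) < r := by exact_mod_cast hr.pos
  set c : ℚ := 2 * r with hcdef
  have hc0 : 0 < c := by positivity
  have hcI : ∀ q : ℕ, Ge q 0 c := fun q => by simpa using H22.Ge.nat (q := q) (2 * r)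
  have hc2 : padicValRat 2 c = 1 := by
    rw [hcdef, padicValRat.mul two_ne_zero hr0.ne', v2_two, val_prime Nat.prime_two hr hr2.symm]
    rfl
  have hx0 : x ≠ 0 := by rintro rfl; simp at hx
  have o2 : Odd (padicValRat 2 c) := by rw [hc2]; exact odd_one
  have a1 := (aniso_odd o2 x).1
  have a2 := (aniso_odd o2 s).1
  have hh : c + (nn x c s / mm c s) ^ 2 ≠ 0 := by positivity
  have hd0 := dd_pos c s
  have hquad : ∀ q : ℕ, q.Prime → 0 ≤ padicValRat q (c ^ 2 + 0 * c + 1) := by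
    intro q hq
    have := Fact.mk hq
    have h1 := (ge_quad (p := q) c (H22.Ge.zero 0)).le (quad_pos c).ne'
    have := (hcI q).le hc0.ne'
    omega
  have hdiff : ∀ q : ℕ, q.Prime → Ge q 0 (c ^ 2 + -1 * c + 1) := by
    intro q hq
    have := Fact.mk hq
    have := (hcI q).le hc0.ne'
    exact (ge_quad (p := q) c ge_m1).mono (by omega)
  have esub : s ^ 2 - ee c = s ^ 2 - c + 16 * (c ^ 2 + -1 * c + 1) := by unfold ee; ring
  by_cases hp2 : p = 2
  · subst hp2
    obtain ⟨G0, hG⟩ := v_G (p := 2) a1 hc0.ne' a2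
    have h1 := (aniso_odd o2 x).2.2 hx0
    have h2 := (aniso_odd o2 s).2.1
    have h3 : padicValRat 2 (s ^ 2 - c) ≤ padicValRat 2 (s ^ 2 - ee c) := by
      apply H22.Ge.le _ (sub_ee_pos c s).ne'
      rw [esub]
      exact (H22.Ge.self _).add ((ge16.mul_zero (hdiff 2 hp)).mono (by omega))
    have h4 := hquad 2 hp
    have h5 := (v5_le (p := 2)).2
    have h6 : SqP 2 ((nn x c s / mm c s) ^ 2 + c) := sqP_add3 (pow_ne_zero 2 G0) (sqP_sq 2 G0)
      (H22.Ge.of_le (by rw [padicValRat.pow]; push_cast; omega))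
    rw [add_comm] at h6
    have h7 := sound4 2 hh hd0.ne' hc0.ne' h h6
    rw [hs_two hc2] at h7
    exact one_ne_zero h7
  obtain rfl : p = r := hpr.resolve_left hp2
  obtain ⟨l, hl, hl2, hsl⟩ : ∃ l : ℕ, l.Prime ∧ l ≠ 2 ∧ hs l (dd c s) c ≠ 0 := by
    by_contra hcon
    push Not at hcon
    have := all_of_one hd0.ne' hc0.ne' Nat.prime_two hcon (fun h => absurd h.1 hd0.not_gt) 2
      Nat.prime_two
    rw [hs_two hc2] at this
    exact one_ne_zero this
  have := Fact.mk hl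
  apply hsl
  apply sound4 l hh hd0.ne' hc0.ne' h
  obtain ⟨G0, hG⟩ := v_G (p := l) a1 hc0.ne' a2
  rw [add_comm]
  apply sqP_add hl2 (pow_ne_zero 2 G0) (sqP_sq l G0) (H22.Ge.of_le _)
  rw [padicValRat.pow]
  push_cast
  have h4 := hquad l hl
  have h5 := v5_le (p := l)
  have hcn : ¬ SqP l c := fun h1 => hsl (by rw [hs_comm]; exact hs_of_sqP h1 _)
  obtain ⟨-, b1, b2⟩ := aniso hl2 hc0.ne' hcn x
  obtain ⟨-, b3, b4⟩ := aniso hl2 hc0.ne' hcn s
  have heI : Ge l 0 (ee c) := (hcI l).sub ((H22.Ge.ofNat (q := l) 16).mul_zero (hdiff l hl))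
  have b5 : 0 ≤ padicValRat l s → 0 ≤ padicValRat l (s ^ 2 - ee c) := fun h1 =>
    ((show Ge l 0 _ by simpa using (H22.Ge.of_le h1).sq).sub heI).le (sub_ee_pos c s).ne'
  have b6 : padicValRat l s < 0 → s ≠ 0 ∧ padicValRat l (s ^ 2 - ee c) = 2 * padicValRat l s := by
    intro h1
    have hs0 : s ≠ 0 := by rintro rfl; simp at h1
    have := v_add (q := l) (pow_ne_zero 2 hs0) (y := -ee c)
      (heI.neg.mono (by rw [padicValRat.pow]; push_cast; omega))
    rw [← sub_eq_add_neg, padicValRat.pow] at this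
    exact ⟨hs0, by exact_mod_cast this.2⟩
  have hvc : padicValRat l c = padicValRat l (p : ℚ) := by
    rw [hcdef, padicValRat.mul two_ne_zero hr0.ne', (H22.U.two hl2).2, zero_add]
  by_cases hlp : l = p
  · subst hlp
    rw [v_self] at hvc
    have := b2 hx0
    by_cases h1 : 0 ≤ padicValRat l s
    · have := b5 h1
      omega
    · obtain ⟨h2, h3⟩ := b6 (by omega)
      have := b4 h2
      omega
  · rw [val_prime hl hp hlp] at hvc
    have h6 : Odd (padicValRat l (dd c s)) := by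
      by_contra h6
      exact hsl (hs_unit hl2 (V_zero.2 (Int.not_odd_iff_even.1 h6)) (V_of_val hvc))
    rw [dd, padicValRat.mul (by norm_num) (sub_ee_pos c s).ne'] at h6
    obtain ⟨k, hk⟩ := h6
    by_cases h1 : 0 ≤ padicValRat l s
    · have := b5 h1
      omega
    · obtain ⟨h2, h3⟩ := b6 (by omega)
      have := b4 h2
      omega

lemma v_ee {q : ℕ} [Fact q.Prime] (hq2 : q ≠ 2) {c : ℚ} (hc : padicValRat q c ≠ 0) :
    padicValRat q (ee c) = 2 * min 0 (padicValRat q c) := by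
  obtain ⟨h1, h2⟩ := v_quad (p := q) hc ge_m1
  have h16 : U q 16 := by
    have := (H22.U.four hq2).sq
    norm_num at this
    exact this
  have h3 : padicValRat q (-(16 * (c ^ 2 + -1 * c + 1))) = 2 * min 0 (padicValRat q c) := by
    rw [padicValRat.neg, padicValRat.mul h16.1 h1, h16.2, h2, zero_add]
  have := v_add (q := q) (neg_ne_zero.2 (mul_ne_zero h16.1 h1)) (y := c)
    (H22.Ge.of_le (by rw [h3]; omega))
  rw [neg_add_eq_sub, h3] at this
  exact this.2

lemma sqP_ee_five {c : ℚ} (hc0 : c ≠ 0) (hc : ¬ SqP 5 c) : SqP 5 (ee c) := by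
  have := Fact.mk (by norm_num : Nat.Prime 5)
  have h52 : (5 : ℕ) ≠ 2 := by norm_num
  obtain ⟨h1, h2, h3⟩ := aniso h52 hc0 hc 1
  have h4 := h3 one_ne_zero
  rw [one_pow] at h1 h2 h4
  rw [padicValRat.one] at h4
  have hv5 : Ge 5 1 5 := H22.Ge.of_le (by exact_mod_cast (v_self (q := 5)).ge)
  have h5 : Ge 5 (2 * min 0 (padicValRat 5 c)) ((1 - c) ^ 2) := by
    have : Ge 5 (min 0 (padicValRat 5 c)) (1 - c) :=
      (H22.Ge.one.mono (min_le_left _ _)).sub (H22.Ge.of_le (min_le_right _ _))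
    exact this.sq
  have h6 := hv5.mul (h5.add ((H22.Ge.ofNat (q := 5) 3).zero_mul (ge_quad (p := 5) c ge_m1)))
  have h7 : 2 * (1 - c) ≠ 0 := mul_ne_zero two_ne_zero h1
  have h8 := sqP_add h52 (pow_ne_zero 2 h7) (sqP_sq 5 h7) (h6.neg.mono (by
    rw [padicValRat.pow, padicValRat.mul two_ne_zero h1, (H22.U.two h52).2]
    push_cast; omega))
  convert h8 using 1
  unfold ee; ring

lemma hs_unit_odd {q : ℕ} (hq2 : q ≠ 2) {t c : ℚ} (ht : V q t = 0) (hc : V q c = 1) :
    hs q t c = L q t := by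
  unfold hs; rw [if_neg hq2, ht, hc]; ring

lemma exists_s {c : ℚ} (hc2 : padicValRat 2 c = 1) {l : ℕ} (hl : l.Prime) (hl2 : l ≠ 2)
    (hlc : Odd (padicValRat l c)) :
    ∃ s : ℚ, (∀ q : ℕ, q.Prime → q ≠ 2 → q ≠ l → hs q (dd c s) c = 0) ∧
      padicValRat l (s ^ 2 - ee c) ≤ padicValRat l (ee c) := by
  have hc0 : c ≠ 0 := by rintro rfl; simp at hc2
  have he0 := (ee_neg c).ne
  have h50 : (5 : ℚ) ≠ 0 := by norm_num
  have hVe : ∀ q : ℕ, q.Prime → q ≠ 2 → V q c = 1 → V q (ee c) = 0 := by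
    intro q hq hq2 h
    have := Fact.mk hq
    have h1 := V_one.1 h
    rw [V_zero, v_ee hq2 (by rintro h2; rw [h2] at h1; simp at h1)]
    exact even_two_mul _
  have hloc : ∀ q : ℕ, ∃ t : ℚ, q.Prime → t ≠ 0 ∧ hs q t (ee c) = 0 ∧
      (q = 2 → t = 1) ∧ (q = l → V q t = 0 ∧ hs q (5 * t) c = 1) ∧
      (q ≠ 2 → q ≠ l → hs q (5 * t) c = 0) := by
    intro q
    by_cases hq : q.Prime
    swap
    · exact ⟨0, fun h => absurd h hq⟩
    have := Fact.mk hq
    by_cases hq2 : q = 2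
    · exact ⟨1, fun _ => ⟨one_ne_zero, hs_one_left q _, fun _ => rfl,
        fun h => absurd (h ▸ hq2) hl2, fun h => absurd hq2 h⟩⟩
    by_cases hql : q = l
    · obtain ⟨t, h1, h2, h3⟩ := real_odd q hq2 0 (1 + hs q 5 c)
      have h4 : V q c = 1 := V_one.2 (hql ▸ hlc)
      refine ⟨t, fun _ => ⟨h1, hs_unit hq2 h2 (hVe q hq hq2 h4), fun h => absurd h hq2,
        fun _ => ⟨h2, ?_⟩, fun _ h => absurd hql h⟩⟩
      rw [hs_mul_left q _ h50 h1, hs_unit_odd hq2 h2 h4, h3]
      linear_combination z2 (hs q 5 c)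
    rcases z2c (V q c) with h4 | h4
    · by_cases h5 : hs q 5 c = 0
      · exact ⟨1, fun _ => ⟨one_ne_zero, hs_one_left q _, fun h => absurd h hq2,
          fun h => absurd h hql, fun _ _ => by simpa using h5⟩⟩
      · have h6 : q = 5 := by
          by_contra h6
          have := V_prime hq (by norm_num : Nat.Prime 5) h6
          exact h5 (hs_unit hq2 (by exact_mod_cast this) h4)
        subst h6
        have h7 := sqP_ee_five hc0 (fun h => h5 (by rw [hs_comm]; exact hs_of_sqP h _))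
        refine ⟨5, fun _ => ⟨h50, by rw [hs_comm]; exact hs_of_sqP h7 _, fun h => absurd h hq2,
          fun h => absurd h hql, fun _ _ => ?_⟩⟩
        rw [← pow_two]; exact hs_sq 5 c h50
    · obtain ⟨t, h1, h2, h3⟩ := real_odd q hq2 0 (hs q 5 c)
      refine ⟨t, fun _ => ⟨h1, hs_unit hq2 h2 (hVe q hq hq2 h4), fun h => absurd h hq2,
        fun h => absurd h hql, fun _ _ => ?_⟩⟩
      rw [hs_mul_left q _ h50 h1, hs_unit_odd hq2 h2 h4, h3, z2]
  choose t ht using hloc
  set S := insert 2 (insert l (insert 5 (supp c ∪ supp (ee c)))) with hS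
  have hSp : ∀ p ∈ S, p.Prime := by
    intro p hp
    simp only [hS, Finset.mem_insert, Finset.mem_union] at hp
    rcases hp with rfl | rfl | rfl | hp | hp
    exacts [Nat.prime_two, hl, by norm_num, supp_prime hp, supp_prime hp]
  obtain ⟨T, r, T0, hr, -, hrS, hσ, hT, hTr, hT'⟩ :=
    approx S hSp t (fun p hp => (ht p (hSp p hp)).1) 3 (by norm_num) 0 0
  have hTpos : ¬ T < 0 := by
    intro h; rw [sg_neg h] at hσ; exact one_ne_zero hσ
  have h2S : 2 ∈ S := by simp [hS]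
  have hlS : l ∈ S := by simp [hS]
  have hin : ∀ q ∈ S, hs q T (ee c) = 0 ∧ hs q (5 * T) c = hs q (5 * t q) c := by
    intro q hq
    have := Fact.mk (hSp q hq)
    obtain ⟨e, he, rfl⟩ := hT q hq
    have h1 := ht q (hSp q hq)
    rw [hs_approx q h1.1 he, ← mul_assoc, hs_approx q (mul_ne_zero h50 h1.1) he]
    exact ⟨h1.2.1, rfl⟩
  have hout : ∀ q : ℕ, q.Prime → q ∉ S → q ≠ r → hs q T (ee c) = 0 ∧ hs q (5 * T) c = 0 := by
    intro q hq hqS hqr
    have := Fact.mk hq
    have v0 := V_of_val (hT' q hq hqS hqr)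
    simp only [hS, Finset.mem_insert, Finset.mem_union, not_or] at hqS
    obtain ⟨p2, -, p5, c1, c2⟩ := hqS
    have v5 : V q (5 : ℚ) = 0 := by exact_mod_cast V_prime hq (by norm_num : Nat.Prime 5) p5
    exact ⟨hs_unit p2 v0 (V_of_val (val_supp he0 hq c2)),
      hs_unit p2 (by rw [V_mul q h50 T0, v0, v5, add_zero]) (V_of_val (val_supp hc0 hq c1))⟩
  have key : ∀ q : ℕ, q.Prime → q ≠ 2 → q ≠ l → q ≠ r → hs q (5 * T) c = 0 := by
    intro q hq h1 h2 h3
    by_cases hqS : q ∈ S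
    · rw [(hin q hqS).2]; exact (ht q hq).2.2.2.2 h1 h2
    · exact (hout q hq hqS h3).2
  have hr2 : r ≠ 2 := fun h => hrS (h ▸ h2S)
  have hrl : r ≠ l := fun h => hrS (h ▸ hlS)
  have keyr : hs r (5 * T) c = 0 := by
    have h1 := recip (mul_ne_zero h50 T0) hc0 {2, l, r} (by
      intro p hp
      simp only [Finset.mem_insert, Finset.mem_singleton] at hp
      rcases hp with rfl | rfl | rfl
      exacts [Nat.prime_two, hl, hr]) (by
      intro p hp hn
      simp only [Finset.mem_insert, Finset.mem_singleton, not_or] at hn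
      exact key p hp hn.1 hn.2.1 hn.2.2)
    rw [Finset.sum_insert (by simp [hl2.symm, hr2.symm]), Finset.sum_insert (by simp [hrl.symm]),
      Finset.sum_singleton, (hin 2 h2S).2, (hin l hlS).2, ((ht l hl).2.2.2.1 rfl).2,
      (ht 2 Nat.prime_two).2.2.1 rfl, hinf_zero.2 (fun h => hTpos (by linarith [h.1]))] at h1
    have h2 := hs_two hc2 0
    have h3 := hs_norm 2 (d := ee c) (z := 0) (w := 1) he0 (by simpa using he0)
    have h5 : V 2 (5 : ℚ) = 0 := by simpa using V_int 2 (m := 5) (by norm_num)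
    have h6 : E 5 = 0 := by
      have := E_int (m := 5) (by norm_num)
      push_cast at this; rw [this]; decide
    have h7 : W 5 = 1 := by
      have := W_int (m := 5) (by norm_num)
      push_cast at this; rw [this]; decide
    have h8 : hs 2 (5 * 1) c = 1 := by
      simp [hs, h5, h6, h7, V_one.2 (show Odd (padicValRat 2 c) by rw [hc2]; exact odd_one)]
    rw [h8] at h1
    linear_combination h1 - z2 1
  have j1 : ¬ (ee c < 0 ∧ T < 0) := fun h => hTpos h.2
  obtain ⟨X, Y, hXY⟩ := legendre_nm he0 T0 (all_of_one he0 T0 hr (fun q hq hqr => by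
    rw [hs_comm]
    by_cases hqS : q ∈ S
    · exact (hin q hqS).1
    · exact (hout q hq hqS hqr).1) j1) j1
  have hns : ∀ u : ℚ, u ^ 2 ≠ T := by
    intro u hu
    have := Fact.mk hr
    rw [← hu, padicValRat.pow] at hTr
    push_cast at hTr
    omega
  have hY : Y ≠ 0 := by
    intro h0
    exact hns X (by simp [hXY, h0])
  have := Fact.mk hl
  obtain ⟨s, W, hW, h1, h2⟩ := shrink_even (p := l) hl2 (κ := T / Y ^ 2) (X := X / Y) (e := ee c)
    (by
      rw [padicValRat.div T0 (pow_ne_zero _ hY), padicValRat.pow]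
      refine Even.sub ?_ (even_two_mul _)
      obtain ⟨e, he, h⟩ := hT l hlS
      have h1 := ht l hl
      have he1 : Sm l 1 e := he.mono (by norm_num)
      rw [← V_zero, h, V_mul l h1.1 (one_add_ne l he1), (h1.2.2.2.1 rfl).1, V_one_add l he1,
        add_zero])
    (div_ne_zero T0 (pow_ne_zero _ hY))
    (fun u hu => hns (u * Y) (by rw [mul_pow, hu]; field_simp)) he0
    (by rw [hXY]; field_simp; ring)
  have e1 : s ^ 2 - ee c = T / Y ^ 2 * W ^ 2 := by linarith
  refine ⟨s, fun q hq hq2 hql => ?_, by rw [e1]; exact h2⟩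
  have := Fact.mk hq
  have e2 : dd c s = 5 * T * (W / Y) ^ 2 := by rw [dd, e1]; field_simp
  rw [e2, hs_sq_left q _ (mul_ne_zero h50 T0) (div_ne_zero hW hY)]
  by_cases hqr : q = r
  · rw [hqr]; exact keyr
  · exact key q hq hq2 hql hqr

lemma satisfy (k : ℤ) {c : ℚ} (hc2 : padicValRat 2 c = 1) {l : ℕ} (hl : l.Prime) (hl2 : l ≠ 2)
    (hlc : Odd (padicValRat l c)) : ∃ s y z w : ℚ,
    c + (nn (k : ℚ) c s / mm c s) ^ 2 = dd c s * y ^ 2 + c * z ^ 2 - dd c s * c * w ^ 2 := by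
  obtain ⟨s, h1, h2⟩ := exists_s hc2 hl hl2 hlc
  have hc0 : c ≠ 0 := by rintro rfl; simp at hc2
  have o2 : Odd (padicValRat 2 c) := by rw [hc2]; exact odd_one
  have a1 := (aniso_odd o2 (k : ℚ)).1
  have a2 := (aniso_odd o2 s).1
  have esub : s ^ 2 - c = s ^ 2 - ee c - 16 * (c ^ 2 + -1 * c + 1) := by unfold ee; ring
  have hk : ∀ q : ℕ, q.Prime → min 0 (padicValRat q c) ≤ padicValRat q ((k : ℚ) ^ 2 - c) := by
    intro q hq
    have := Fact.mk hq
    exact (((H22.Ge.int k).sq.mono (by omega)).sub (H22.Ge.of_le (min_le_right _ _))).le a1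
  have t2 : Ge 2 (padicValRat 2 c + 1) ((nn (k : ℚ) c s / mm c s) ^ 2) := by
    obtain ⟨G0, hG⟩ := v_G (p := 2) a1 hc0 a2
    apply H22.Ge.of_le
    have h3 := hk 2 Nat.prime_two
    have h4 := (v_quad (p := 2) (c := c) (by omega) (H22.Ge.zero 0)).2
    have h5 : padicValRat 2 (5 : ℚ) = 0 := by simpa using v_int (q := 2) (z := 5) (by norm_num)
    have h6 : padicValRat 2 (ee c) = 1 := by
      have := v_add (q := 2) hc0 (y := -(16 * (c ^ 2 + -1 * c + 1)))
        ((ge16.mul (ge_quad (p := 2) c ge_m1)).neg.mono (by omega))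
      rw [← sub_eq_add_neg, hc2] at this
      exact this.2
    have h7 := (aniso_odd (p := 2) (c := ee c) (by rw [h6]; exact odd_one) s).2.1
    have h8 : padicValRat 2 (s ^ 2 - ee c) ≤ padicValRat 2 (s ^ 2 - c) := by
      apply H22.Ge.le _ a2
      rw [esub]
      exact (H22.Ge.self _).sub ((ge16.mul (ge_quad (p := 2) c ge_m1)).mono (by omega))
    rw [padicValRat.pow]
    push_cast
    omega
  have tl : Ge l (padicValRat l c + 1) ((nn (k : ℚ) c s / mm c s) ^ 2) := by
    have := Fact.mk hl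
    obtain ⟨G0, hG⟩ := v_G (p := l) a1 hc0 a2
    apply H22.Ge.of_le
    obtain ⟨j, hj⟩ := hlc
    have h3 := hk l hl
    have h4 := (v_quad (p := l) (c := c) (by omega) (H22.Ge.zero 0)).2
    have h5 := (v5_le (p := l)).1
    have h6 := v_ee hl2 (c := c) (by omega)
    have h8 : padicValRat l (s ^ 2 - ee c) ≤ padicValRat l (s ^ 2 - c) := by
      apply H22.Ge.le _ a2
      rw [esub]
      exact (H22.Ge.self _).sub
        (((H22.Ge.ofNat (q := l) 16).zero_mul (ge_quad (p := l) c ge_m1)).mono (by omega))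
    rw [padicValRat.pow]
    push_cast
    omega
  have hd0 := dd_pos c s
  refine ⟨s, complete4 (v_add hc0 t2).1 hd0.ne' hc0 (fun q hq hqs hsq => ?_)
    (fun h => absurd h hd0.not_gt)⟩
  have := Fact.mk hq
  have h3 := V_zero.1 hsq.1
  by_cases hq2 : q = 2
  · subst hq2
    rw [(v_add hc0 t2).2] at h3
    exact Int.not_odd_iff_even.2 h3 o2
  by_cases hql : q = l
  · subst hql
    rw [(v_add hc0 tl).2] at h3
    exact Int.not_odd_iff_even.2 h3 hlc
  rw [h1 q hq hq2 hql] at hqs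
  exact zero_ne_one hqs

/-- The main polynomial. -/
def Q₁ {R : Type} [CommRing R] (x t s y z w : R) : R :=
  2 * t * mm (2 * t) s ^ 2 + nn x (2 * t) s ^ 2 -
    (dd (2 * t) s * y ^ 2 + 2 * t * z ^ 2 - dd (2 * t) s * (2 * t) * w ^ 2)

/-- The escape clause for parameters that are not 2-adic units. -/
def Q₂ {R : Type} [CommRing R] (t y z w : R) : R :=
  80 * (t ^ 2 - 3 * (t ^ 2 + 1) ^ 2) ^ 4 + 25 * t ^ 8 - 5 * y ^ 2 - 2 * (z ^ 2 - 5 * w ^ 2)

theorem int_iff (x : ℚ) : (∃ k : ℤ, (k : ℚ) = x) ↔ ∀ t : ℚ, ∃ s y z w : ℚ,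
    (t - s ^ 2) * (t + s ^ 2) * Q₂ t y z w * Q₁ x t s y z w = 0 := by
  constructor
  · rintro ⟨k, rfl⟩ t
    by_cases ht0 : t = 0
    · exact ⟨0, 0, 0, 0, by simp [ht0]⟩
    by_cases ht2 : padicValRat 2 t = 0
    · obtain ⟨a, u, ha, hu, e⟩ := rat_sqf ht0
      by_cases ha1 : a.natAbs = 1
      · rcases Int.natAbs_eq_iff.1 ha1 with h | h
        · exact ⟨u, 0, 0, 0, by simp [e, h]⟩
        · exact ⟨u, 0, 0, 0, by simp [e, h]⟩
      obtain ⟨l, hl, hla⟩ := Nat.exists_prime_and_dvd ha1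
      have := Fact.mk hl
      have ha0 : (a : ℚ) ≠ 0 := by exact_mod_cast ha.ne_zero
      have h1 : V l t = 1 := by
        rw [e, hom_sq (φ := V l) (fun _ _ => V_mul l) ha0 hu]
        exact V_sqf ha (Int.natCast_dvd.2 hla)
      have hl2 : l ≠ 2 := by
        rintro rfl
        rw [V_of_val ht2] at h1
        exact zero_ne_one h1
      obtain ⟨s, y, z, w, h⟩ := satisfy k (c := 2 * t)
        (by rw [padicValRat.mul two_ne_zero ht0, v2_two, ht2]; rfl) hl hl2
        (by rw [padicValRat.mul two_ne_zero ht0, (H22.U.two hl2).2, zero_add]; exact V_one.1 h1)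
      refine ⟨s, mm (2 * t) s * y, mm (2 * t) s * z, mm (2 * t) s * w, mul_eq_zero_of_right _ ?_⟩
      have hm := (mm_pos (2 * t) s).ne'
      unfold Q₁
      generalize mm (2 * t) s = M at h hm
      generalize nn (k : ℚ) (2 * t) s = N at h
      generalize dd (2 * t) s = D at h
      field_simp at h
      linear_combination h
    · have h1 := v_quad (p := 2) ht2 (H22.Ge.zero 0)
      obtain ⟨Y, Z, W, h⟩ := H22.complete_two (m := (t ^ 2 + 0 * t + 1) / t) (by
        rw [padicValRat.div h1.1 ht0, h1.2]; omega)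
      refine ⟨0, t ^ 4 * Y, t ^ 4 * Z, t ^ 4 * W,
        mul_eq_zero_of_left (mul_eq_zero_of_right _ ?_) _⟩
      unfold Q₂
      field_simp at h
      linear_combination h
  · intro h
    by_contra hx
    have hden : x.den ≠ 1 := fun h1 => hx ⟨x.num, (Rat.den_eq_one_iff x).1 h1⟩
    obtain ⟨p, hp, hpd⟩ := Nat.exists_prime_and_dvd hden
    have hpx : padicValRat p x < 0 := by
      have := Fact.mk hp
      by_contra h3
      exact H22.not_dvd_den (q := p) (H22.Ge.of_le (not_lt.1 h3)) (by exact_mod_cast hpd)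
    obtain ⟨r, hr, hr2, hpr⟩ : ∃ r : ℕ, r.Prime ∧ r ≠ 2 ∧ (p = 2 ∨ p = r) := by
      by_cases h2 : p = 2
      · exact ⟨3, Nat.prime_three, by norm_num, Or.inl h2⟩
      · exact ⟨p, hp, h2, Or.inr rfl⟩
    obtain ⟨s, y, z, w, h1⟩ := h r
    have hr0 : (0 : ℚ) < r := by exact_mod_cast hr.pos
    rcases mul_eq_zero.1 h1 with h1 | h1
    · rcases mul_eq_zero.1 h1 with h1 | h1
      · rcases mul_eq_zero.1 h1 with h1 | h1
        · have := Fact.mk hr
          exact (aniso_odd (p := r) (c := r) (by rw [v_self]; exact odd_one) s).1 (by linarith)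
        · nlinarith [sq_nonneg s]
      · have hU : U 2 (r : ℚ) := ⟨hr0.ne', val_prime Nat.prime_two hr hr2.symm⟩
        have h2 : Ge 2 0 (((r ^ 2 - 3 * (r ^ 2 + 1) ^ 2 : ℤ) : ℚ) / (r : ℚ) ^ 2) :=
          (H22.Ge.int _).div_U hU.sq
        apply H22.sound_two (Y := y / r ^ 4) (Z := z / r ^ 4) (W := w / r ^ 4) h2
        unfold Q₂ at h1
        push_cast
        field_simp
        linear_combination h1
    · apply refute hp hr hr2 hpr hpx s (y / mm (2 * (r : ℚ)) s) (z / mm (2 * (r : ℚ)) s)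
        (w / mm (2 * (r : ℚ)) s)
      have hm := (mm_pos (2 * (r : ℚ)) s).ne'
      unfold Q₁ at h1
      generalize mm (2 * (r : ℚ)) s = M at h1 hm
      generalize nn x (2 * (r : ℚ)) s = N at h1
      generalize dd (2 * (r : ℚ)) s = D at h1
      field_simp
      linear_combination h1

end Pool.Agent.MP_28f2cb_lc.H22U
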