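import Pool.Agent.MP_28f2cb_lc.H22.One

/-! The integers are definable in the rationals by a formula with one universal quantifier
followed by four existential quantifiers. -/

namespace Pool.Agent.MP_28f2cb_lc.H22U.OneUniversal

open Pool.Agent.MP_28f2cb_lc.H22U MvPolynomial

theorem result : ∃ P : MvPolynomial (Fin (4 + 1 + 1)) ℤ, ∀ q : ℚ,
    (∃ z : ℤ, (z : ℚ) = q) ↔ ∀ t : ℚ, ∃ y : Fin 4 → ℚ,
      MvPolynomial.aeval (Fin.cons q (Fin.cons t y : Fin (4 + 1) → ℚ) : Fin (4 + 1 + 1) → ℚ) P = 0 := by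
  refine ⟨(X 1 - X 2 ^ 2) * (X 1 + X 2 ^ 2) * Q₂ (X 1) (X 3) (X 4) (X 5) *
    Q₁ (X 0) (X 1) (X 2) (X 3) (X 4) (X 5), fun q => ?_⟩
  have key : ∀ (t : ℚ) (y : Fin 4 → ℚ),
      MvPolynomial.aeval (Fin.cons q (Fin.cons t y : Fin (4 + 1) → ℚ) : Fin (4 + 1 + 1) → ℚ)
      ((X 1 - X 2 ^ 2) * (X 1 + X 2 ^ 2) * Q₂ (X 1) (X 3) (X 4) (X 5) *
        Q₁ (X 0) (X 1) (X 2) (X 3) (X 4) (X 5) : MvPolynomial (Fin (4 + 1 + 1)) ℤ) =
      (t - y 0 ^ 2) * (t + y 0 ^ 2) * Q₂ t (y 1) (y 2) (y 3) * Q₁ q t (y 0) (y 1) (y 2) (y 3) := by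
    intro t y
    simp only [Q₁, Q₂, mm, nn, dd, ee, map_mul, map_add, map_sub, map_pow, map_one, map_ofNat,
      map_neg, map_zero, aeval_X]
    rfl
  rw [int_iff]
  refine forall_congr' fun t => ?_
  constructor
  · rintro ⟨s, y, z, w, h⟩
    exact ⟨![s, y, z, w], by rw [key]; exact h⟩
  · rintro ⟨y, h⟩
    rw [key] at h
    exact ⟨_, _, _, _, h⟩

end Pool.Agent.MP_28f2cb_lc.H22U.OneUniversal
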