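import Pool.Agent.MP_28f2cb_lc.H22.Legendre

/-! The product formula for the tame symbols when the first entry is 1 modulo 4. -/

namespace Pool.Agent.MP_28f2cb_lc.H22

/-- The contribution of 2 and infinity. -/
def RR (a x : ℤ) : ℤ :=
  (if a % 8 = 1 ∨ Even (padicValInt 2 x) then 1 else -1) * (if a < 0 ∧ x < 0 then -1 else 1)

/-- The signed prime that is 1 modulo 4. -/
def star (r : ℕ) : ℤ := if r % 4 = 1 then r else -r

lemma RR_mul_right {a x y : ℤ} (hx : x ≠ 0) (hy : y ≠ 0) : RR a (x * y) = RR a x * RR a y := by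
  unfold RR
  have := Fact.mk Nat.prime_two
  rw [padicValInt.mul hx hy]
  have h1 : x * y < 0 ↔ ¬ (x < 0 ↔ y < 0) := by
    rcases lt_or_gt_of_ne hx with h | h <;> rcases lt_or_gt_of_ne hy with h' | h' <;>
      simp [h, h', h'.le, not_lt.2 h.le, not_lt.2 h'.le] <;> nlinarith
  simp only [h1, Nat.even_add]
  by_cases o1 : a % 8 = 1 <;> by_cases o2 : Even (padicValInt 2 x) <;>
    by_cases o3 : Even (padicValInt 2 y) <;> by_cases o4 : a < 0 <;> by_cases o5 : x < 0 <;>
    by_cases o6 : y < 0 <;> simp [o1, o2, o3, o4, o5, o6]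

lemma RR_mul_left {a b x : ℤ} (ha : a % 4 = 1) (hb : b % 4 = 1) :
    RR (a * b) x = RR a x * RR b x := by
  unfold RR
  have ha0 : a ≠ 0 := by omega
  have hb0 : b ≠ 0 := by omega
  have h1 : a * b < 0 ↔ ¬ (a < 0 ↔ b < 0) := by
    rcases lt_or_gt_of_ne ha0 with h | h <;> rcases lt_or_gt_of_ne hb0 with h' | h' <;>
      simp [h, h', h'.le, not_lt.2 h.le, not_lt.2 h'.le] <;> nlinarith
  have h2 : a * b % 8 = 1 ↔ (a % 8 = 1 ↔ b % 8 = 1) := by
    rw [Int.mul_emod]
    have h3 : a % 8 = 1 ∨ a % 8 = 5 := by omega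
    have h4 : b % 8 = 1 ∨ b % 8 = 5 := by omega
    rcases h3 with h3 | h3 <;> rcases h4 with h4 | h4 <;> simp [h3, h4]
  simp only [h1, h2]
  by_cases o1 : a % 8 = 1 <;> by_cases o2 : Even (padicValInt 2 x) <;>
    by_cases o3 : b % 8 = 1 <;> by_cases o4 : a < 0 <;> by_cases o5 : x < 0 <;>
    by_cases o6 : b < 0 <;> simp [o1, o2, o3, o4, o5, o6]

lemma prime_not_dvd {q r : ℕ} (hq : q.Prime) (hr : r.Prime) (h : q ≠ r) : ¬ (q : ℤ) ∣ (r : ℤ) := by
  intro h1
  exact h ((Nat.prime_dvd_prime_iff_eq hq hr).1 (by exact_mod_cast h1))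

lemma star_cases (r : ℕ) : star r = r ∨ star r = -r := by
  unfold star; split_ifs <;> simp

lemma not_dvd_star {q r : ℕ} (hq : q.Prime) (hr : r.Prime) (h : q ≠ r) : ¬ (q : ℤ) ∣ star r := by
  rcases star_cases r with h1 | h1 <;> rw [h1]
  · exact prime_not_dvd hq hr h
  · rw [dvd_neg]; exact prime_not_dvd hq hr h

lemma v_star {r : ℕ} (hr : r.Prime) : padicValRat r ((star r : ℤ) : ℚ) = 1 := by
  have := Fact.mk hr
  rcases star_cases r with h1 | h1 <;> rw [h1] <;> push_cast
  · exact v_self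
  · rw [padicValRat.neg]; exact v_self

lemma hs_unit {q : ℕ} {a x : ℤ} (ha : ¬ (q : ℤ) ∣ a) (hx : ¬ (q : ℤ) ∣ x) : hs q a x = 1 :=
  hs_even (by rw [v_int ha]; exact Even.zero) (by rw [v_int hx]; exact Even.zero)

lemma hs_star_unit {r : ℕ} (hr : r.Prime) {x : ℤ} (hx : ¬ (r : ℤ) ∣ x) :
    hs r ((star r : ℤ) : ℚ) x = jacobiSym x r := by
  have := Fact.mk hr
  rw [hs_comm, hs_even_odd (by rw [v_int hx]; exact Even.zero) (by rw [v_star hr]; exact odd_one),
    chi_int hx]

lemma chi4_val {r : ℕ} (h : r % 2 = 1) : ZMod.χ₄ (r : ZMod 4) = if r % 4 = 1 then 1 else -1 := by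
  rw [ZMod.χ₄_nat_eq_if_mod_four]
  have : ¬ r % 2 = 0 := by omega
  simp [this]

section base
variable {T : Finset ℕ} (hT : ∀ q ∈ T, q.Prime ∧ q ≠ 2) {r : ℕ} (hrT : r ∈ T)
include hT hrT

lemma base_unit {x : ℤ} (hx : ∀ q ∈ T, ¬ (q : ℤ) ∣ x) :
    ∏ q ∈ T, hs q ((star r : ℤ) : ℚ) x = jacobiSym x r := by
  rw [Finset.prod_eq_single_of_mem r hrT, hs_star_unit (hT r hrT).1 (hx r hrT)]
  intro q hq hqr
  exact hs_unit (not_dvd_star (hT q hq).1 (hT r hrT).1 hqr) (hx q hq)

lemma base_neg_one : ∏ q ∈ T, hs q ((star r : ℤ) : ℚ) ((-1 : ℤ) : ℚ) = RR (star r) (-1) := by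
  have hr := hT r hrT
  have ho : r % 2 = 1 := hr.1.eq_two_or_odd.resolve_left hr.2
  rw [base_unit hT hrT (fun q hq => by
    have := Fact.mk (hT q hq).1
    rw [dvd_neg]; exact not_dvd_one), jacobiSym.at_neg_one (Nat.odd_iff.2 ho), chi4_val ho]
  have h0 : padicValInt 2 (-1) = 0 := padicValInt.eq_zero_of_not_dvd (by norm_num)
  have := hr.1.pos
  unfold RR star
  rw [h0]
  split_ifs <;> first | omega | simp_all

lemma base_two : ∏ q ∈ T, hs q ((star r : ℤ) : ℚ) ((2 : ℤ) : ℚ) = RR (star r) 2 := by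
  have hr := hT r hrT
  have ho : r % 2 = 1 := hr.1.eq_two_or_odd.resolve_left hr.2
  rw [base_unit hT hrT (x := 2)
    (fun q hq => prime_not_dvd (hT q hq).1 Nat.prime_two (hT q hq).2),
    jacobiSym.at_two (Nat.odd_iff.2 ho), ZMod.χ₈_nat_eq_if_mod_eight]
  have h0 : padicValInt 2 2 = 1 := padicValInt.self (p := 2) (by norm_num)
  have h1 : ¬ Even (1 : ℕ) := by decide
  unfold RR star
  rw [h0]
  simp only [h1, or_false]
  split_ifs <;> omega

lemma base_self : ∏ q ∈ T, hs q ((star r : ℤ) : ℚ) ((r : ℤ) : ℚ) = RR (star r) r := by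
  have hr := hT r hrT
  have ho : r % 2 = 1 := hr.1.eq_two_or_odd.resolve_left hr.2
  have := Fact.mk hr.1
  have h0 : padicValInt 2 r = 0 := padicValInt.eq_zero_of_not_dvd (by omega)
  have h1 : RR (star r) r = 1 := by
    unfold RR
    rw [h0]
    have : ¬ (r : ℤ) < 0 := by omega
    simp [this]
  rw [h1, Finset.prod_eq_single_of_mem r hrT]
  · by_cases h4 : r % 4 = 1
    · have e : ((star r : ℤ) : ℚ) = r := by simp [star, h4]
      have h5 : LSq r (-1) := by
        refine ⟨by norm_num, by simp, ?_⟩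
        have := chi_int (q := r) (u := -1) (by rw [dvd_neg]; exact not_dvd_one)
        rw [jacobiSym.at_neg_one (Nat.odd_iff.2 ho), chi4_val ho] at this
        simpa [h4] using this
      have h6 := hs_neg_self (q := r) (a := (r : ℚ)) q_ne
      rw [← mul_neg_one, hs_mul_LSq_right q_ne q_ne h5] at h6
      rw [e]; exact_mod_cast h6
    · have e : ((star r : ℤ) : ℚ) = -r := by simp [star, h4]
      rw [e, hs_comm]
      exact_mod_cast hs_neg_self (q := r) (a := (r : ℚ)) q_ne
  · intro q hq hqr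
    exact hs_unit (not_dvd_star (hT q hq).1 hr.1 hqr) (prime_not_dvd (hT q hq).1 hr.1 hqr)

lemma base_other {s : ℕ} (hsT : s ∈ T) (hrs : r ≠ s) :
    ∏ q ∈ T, hs q ((star r : ℤ) : ℚ) ((s : ℤ) : ℚ) = RR (star r) s := by
  have hr := hT r hrT
  have hs' := hT s hsT
  have ho : r % 2 = 1 := hr.1.eq_two_or_odd.resolve_left hr.2
  have hos : s % 2 = 1 := hs'.1.eq_two_or_odd.resolve_left hs'.2
  have h0 : padicValInt 2 s = 0 := padicValInt.eq_zero_of_not_dvd (by omega)
  have h1 : RR (star r) s = 1 := by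
    unfold RR
    rw [h0]
    have : ¬ (s : ℤ) < 0 := by omega
    simp [this]
  rw [h1, Finset.prod_eq_mul_of_mem r s hrT hsT hrs]
  · rw [hs_star_unit hr.1 (prime_not_dvd hr.1 hs'.1 hrs)]
    have := Fact.mk hs'.1
    have h2 := not_dvd_star hs'.1 hr.1 hrs.symm
    rw [hs_even_odd (by rw [v_int h2]; exact Even.zero)
      (by rw [Int.cast_natCast, v_self]; exact odd_one), chi_int h2]
    have h3 : jacobiSym s r ^ 2 = 1 := by
      have := Fact.mk hr.1
      exact jacobiSym.sq_one (gcd_one (prime_not_dvd hr.1 hs'.1 hrs))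
    by_cases h4 : r % 4 = 1
    · have e : star r = r := by simp [star, h4]
      rw [e, jacobiSym.quadratic_reciprocity_one_mod_four h4 (Nat.odd_iff.2 hos), ← pow_two, h3]
    · have e : star r = -r := by simp [star, h4]
      rw [e, jacobiSym.neg _ (Nat.odd_iff.2 hos), chi4_val hos]
      by_cases h5 : s % 4 = 1
      · rw [jacobiSym.quadratic_reciprocity_one_mod_four' (Nat.odd_iff.2 ho) h5]
        simp [h5, ← pow_two, h3]
      · rw [jacobiSym.quadratic_reciprocity_three_mod_four (a := r) (b := s) (by omega) (by omega)]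
        simp [h5, ← pow_two, h3]
  · intro q hq hqr
    exact hs_unit (not_dvd_star (hT q hq).1 hr.1 hqr.1) (prime_not_dvd (hT q hq).1 hs'.1 hqr.2)

lemma recip_star (x : ℤ) : x ≠ 0 → (∀ q : ℕ, q.Prime → q ≠ 2 → (q : ℤ) ∣ x → q ∈ T) →
    ∏ q ∈ T, hs q ((star r : ℤ) : ℚ) x = RR (star r) x := by
  have hr0 : star r ≠ 0 := by
    have := (hT r hrT).1.pos
    rcases star_cases r with h | h <;> omega
  have hr0q : ((star r : ℤ) : ℚ) ≠ 0 := by exact_mod_cast hr0
  have mul : ∀ x y : ℤ, x ≠ 0 → y ≠ 0 →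
      ∏ q ∈ T, hs q ((star r : ℤ) : ℚ) x = RR (star r) x →
      ∏ q ∈ T, hs q ((star r : ℤ) : ℚ) y = RR (star r) y →
      ∏ q ∈ T, hs q ((star r : ℤ) : ℚ) ((x * y : ℤ) : ℚ) = RR (star r) (x * y) := by
    intro x y hx hy h1 h2
    rw [RR_mul_right hx hy, ← h1, ← h2, ← Finset.prod_mul_distrib]
    apply Finset.prod_congr rfl
    intro q hq
    have := Fact.mk (hT q hq).1
    push_cast
    exact hs_mul_right hr0q (by exact_mod_cast hx) (by exact_mod_cast hy)
  have nat : ∀ n : ℕ, n ≠ 0 → (∀ q : ℕ, q.Prime → q ≠ 2 → q ∣ n → q ∈ T) →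
      ∏ q ∈ T, hs q ((star r : ℤ) : ℚ) ((n : ℤ) : ℚ) = RR (star r) n := by
    intro n
    induction n using induction_on_primes with
    | zero => intro h; exact absurd rfl h
    | one =>
      intro _ _
      rw [Finset.prod_eq_one]
      · simp [RR]
      · intro q hq
        have := Fact.mk (hT q hq).1
        simpa using hs_of_LSq_right (LSq.one (q := q))
    | prime_mul p m hp ih =>
      intro h0 h1
      have hm : m ≠ 0 := by intro h; simp [h] at h0
      have := mul p m (by exact_mod_cast hp.ne_zero) (by exact_mod_cast hm) ?_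
        (ih hm (fun q h2 h3 h4 => h1 q h2 h3 (Dvd.dvd.mul_left h4 p)))
      · exact_mod_cast this
      by_cases h2 : p = 2
      · subst h2; exact base_two hT hrT
      have hpT := h1 p hp h2 (Dvd.intro m rfl)
      by_cases h3 : r = p
      · subst h3; exact base_self hT hrT
      · exact base_other hT hrT hpT h3
  intro hx h
  have h1 := nat x.natAbs (Int.natAbs_ne_zero.2 hx)
    (fun q h2 h3 h4 => h q h2 h3 (Int.natCast_dvd.2 h4))
  rcases Int.natAbs_eq x with h2 | h2
  · rw [h2]; simpa using h1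
  · have := mul (-1) x.natAbs (by norm_num) (by exact_mod_cast Int.natAbs_ne_zero.2 hx)
      (base_neg_one hT hrT) h1
    rw [neg_one_mul, ← h2] at this
    exact this

end base

theorem recip_int {T : Finset ℕ} (hT : ∀ q ∈ T, q.Prime ∧ q ≠ 2) {x : ℤ} (hx : x ≠ 0)
    (hxT : ∀ q : ℕ, q.Prime → q ≠ 2 → (q : ℤ) ∣ x → q ∈ T) (n : ℕ) :
    ∀ a : ℤ, a.natAbs = n → a % 4 = 1 → (∀ q : ℕ, q.Prime → q ≠ 2 → (q : ℤ) ∣ a → q ∈ T) →
      ∏ q ∈ T, hs q a x = RR a x := by
  induction n using Nat.strong_induction_on with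
  | _ n ih =>
    intro a hn ha haT
    by_cases h1 : a.natAbs = 1
    · have : a = 1 := by omega
      subst this
      rw [Finset.prod_eq_one]
      · simp [RR]
      · intro q hq
        have := Fact.mk (hT q hq).1
        simpa using hs_of_LSq_left (LSq.one (q := q))
    obtain ⟨r, hr, hra⟩ := Nat.exists_prime_and_dvd h1
    have hra' : (r : ℤ) ∣ a := Int.natCast_dvd.2 hra
    have hr2 : r ≠ 2 := by
      rintro rfl
      push_cast at hra'
      omega
    have ho : r % 2 = 1 := hr.eq_two_or_odd.resolve_left hr2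
    have hrT := haT r hr hr2 hra'
    have hs4 : star r % 4 = 1 := by unfold star; split_ifs <;> omega
    obtain ⟨b, hb⟩ : star r ∣ a := by
      rcases star_cases r with h | h <;> rw [h]
      · exact hra'
      · exact neg_dvd.2 hra'
    have hb4 : b % 4 = 1 := by
      rw [hb, Int.mul_emod, hs4] at ha
      omega
    have hb0 : b ≠ 0 := by omega
    have hs0 : star r ≠ 0 := by omega
    have hlt : b.natAbs < n := by
      rw [← hn, hb, Int.natAbs_mul]
      have : (star r).natAbs = r := by rcases star_cases r with h | h <;> simp [h]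
      rw [this]
      have := hr.two_le
      have : 0 < b.natAbs := Int.natAbs_pos.2 hb0
      nlinarith
    have h2 := ih _ hlt b rfl hb4 (fun q h3 h4 h5 => haT q h3 h4 (hb ▸ Dvd.dvd.mul_left h5 _))
    have h3 := recip_star hT hrT x hx hxT
    rw [hb, RR_mul_left hs4 hb4, ← h2, ← h3, ← Finset.prod_mul_distrib]
    apply Finset.prod_congr rfl
    intro q hq
    have := Fact.mk (hT q hq).1
    push_cast
    exact hs_mul_left (by exact_mod_cast hs0) (by exact_mod_cast hb0) (by exact_mod_cast hx)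

end Pool.Agent.MP_28f2cb_lc.H22
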