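import Pool.Agent.MP_28f2cb_lc.H22.Recip

/-! Two-adic lemmas and the rational form of the product formula. -/

namespace Pool.Agent.MP_28f2cb_lc.H22

instance fact_two : Fact (Nat.Prime 2) := ⟨Nat.prime_two⟩

lemma pow_dvd_of_Ge {q : ℕ} [Fact q.Prime] {k : ℕ} {z : ℤ} (h : Ge q k (z : ℚ)) :
    (q : ℤ) ^ k ∣ z := by
  rw [padicValInt_dvd_iff]
  rcases h with h | h
  · left; exact_mod_cast h
  · right; rw [padicValRat.of_int] at h; exact_mod_cast h

lemma Ge.of_pow_dvd {q : ℕ} [Fact q.Prime] {k : ℕ} {z : ℤ} (h : (q : ℤ) ^ k ∣ z) :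
    Ge q k (z : ℚ) := by
  rw [padicValInt_dvd_iff] at h
  rcases h with h | h
  · left; exact_mod_cast h
  · right; rw [padicValRat.of_int]; exact_mod_cast h

/-- A `q`-adic unit. -/
def U (q : ℕ) (x : ℚ) : Prop := x ≠ 0 ∧ padicValRat q x = 0

section
variable {q : ℕ} [hq : Fact q.Prime]

omit hq in
lemma U.ge {x : ℚ} (h : U q x) : Ge q 0 x := Ge.of_le h.2.ge

lemma U.mul {x y : ℚ} (hx : U q x) (hy : U q y) : U q (x * y) :=
  ⟨mul_ne_zero hx.1 hy.1, by rw [padicValRat.mul hx.1 hy.1, hx.2, hy.2]; rfl⟩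

lemma U.div {x y : ℚ} (hx : U q x) (hy : U q y) : U q (x / y) :=
  ⟨div_ne_zero hx.1 hy.1, by rw [padicValRat.div hx.1 hy.1, hx.2, hy.2]; rfl⟩

omit hq in
lemma U.neg {x : ℚ} (hx : U q x) : U q (-x) := ⟨neg_ne_zero.2 hx.1, by rw [padicValRat.neg, hx.2]⟩

lemma U.add {x y : ℚ} (hx : U q x) (hy : Ge q 1 y) : U q (x + y) := by
  have := v_add hx.1 (y := y) (by rw [hx.2]; simpa using hy)
  exact ⟨this.1, this.2.trans hx.2⟩

omit hq in
lemma U.int {z : ℤ} (h : ¬ (q : ℤ) ∣ z) : U q (z : ℚ) :=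
  ⟨by intro h0; apply h; have : z = 0 := by exact_mod_cast h0
      simp [this], v_int h⟩

omit hq in
lemma U.one : U q 1 := ⟨one_ne_zero, padicValRat.one⟩

lemma U.sq {x : ℚ} (hx : U q x) : U q (x ^ 2) := by rw [pow_two]; exact hx.mul hx

lemma U.two (h2 : q ≠ 2) : U q 2 := by
  have := U.int (q := q) (z := 2) (prime_not_dvd hq.1 Nat.prime_two h2)
  simpa using this

lemma U.four (h2 : q ≠ 2) : U q 4 := by
  have := (U.two h2).sq
  norm_num at this
  exact this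

lemma Ge.div_U {k : ℤ} {x y : ℚ} (hx : Ge q k x) (hy : U q y) : Ge q k (x / y) := by
  have := hx.div hy.1
  rwa [hy.2, sub_zero] at this

lemma Ge.mul_zero {k : ℤ} {x y : ℚ} (hx : Ge q k x) (hy : Ge q 0 y) : Ge q k (x * y) := by
  simpa using hx.mul hy

lemma Ge.zero_mul {k : ℤ} {x y : ℚ} (hx : Ge q 0 x) (hy : Ge q k y) : Ge q k (x * y) := by
  simpa using hx.mul hy

omit hq in
lemma U_or_Ge {x : ℚ} (h : Ge q 0 x) : U q x ∨ Ge q 1 x := by
  by_cases h0 : x = 0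
  · exact Or.inr (Or.inl h0)
  have := h.le h0
  by_cases h1 : padicValRat q x = 0
  · exact Or.inl ⟨h0, h1⟩
  · exact Or.inr (Or.inr (by omega))

end

lemma v2_two : padicValRat 2 (2 : ℚ) = 1 := by exact_mod_cast v_self (q := 2)

lemma v2_four : padicValRat 2 (4 : ℚ) = 2 := by
  have : (4 : ℚ) = 2 ^ 2 := by norm_num
  rw [this, padicValRat.pow, v2_two]; norm_num

lemma ge2_two : Ge 2 1 2 := Ge.of_le v2_two.ge
lemma ge2_four : Ge 2 2 4 := Ge.of_le v2_four.ge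

lemma odd_sq_int {z : ℤ} (h : ¬ (2 : ℤ) ∣ z) : (8 : ℤ) ∣ z ^ 2 - 1 := by
  obtain ⟨k, rfl⟩ : ∃ k, z = 2 * k + 1 := ⟨z / 2, by omega⟩
  obtain ⟨l, hl⟩ := Int.even_mul_succ_self k
  exact ⟨l, by linear_combination 4 * hl⟩

lemma U.sq_sub_one {x : ℚ} (h : U 2 x) : Ge 2 3 (x ^ 2 - 1) := by
  have h1 : ¬ (2 : ℤ) ∣ x.num := not_dvd_num (q := 2) h.1 h.2.le
  have h2 : ¬ (2 : ℤ) ∣ (x.den : ℤ) := not_dvd_den (q := 2) h.ge
  have h3 : ((2 : ℕ) : ℤ) ^ 3 ∣ x.num ^ 2 - (x.den : ℤ) ^ 2 := by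
    have := dvd_sub (odd_sq_int h1) (odd_sq_int h2)
    simpa using this
  have h4 := (Ge.of_pow_dvd h3).div_U (U.int (q := 2) h2).sq
  have hd : (x.den : ℚ) ≠ 0 := by exact_mod_cast x.den_nz
  have e : x ^ 2 - 1 = ((x.num ^ 2 - (x.den : ℤ) ^ 2 : ℤ) : ℚ) / (((x.den : ℤ) : ℚ)) ^ 2 := by
    push_cast
    rw [← Rat.mul_den_eq_num]
    field_simp
  rw [e]; exact h4

lemma U.sub_one {x : ℚ} (h : U 2 x) : Ge 2 1 (x - 1) := by
  have h1 : ¬ (2 : ℤ) ∣ x.num := not_dvd_num (q := 2) h.1 h.2.le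
  have h2 : ¬ (2 : ℤ) ∣ (x.den : ℤ) := not_dvd_den (q := 2) h.ge
  have h3 : ((2 : ℕ) : ℤ) ∣ x.num - (x.den : ℤ) := by push_cast; omega
  have h4 := (Ge.of_dvd h3).div_U (U.int (q := 2) h2)
  have hd : (x.den : ℚ) ≠ 0 := by exact_mod_cast x.den_nz
  have e : x - 1 = ((x.num - (x.den : ℤ) : ℤ) : ℚ) / (((x.den : ℤ) : ℚ)) := by
    push_cast
    rw [← Rat.mul_den_eq_num]
    field_simp
  rw [e]; exact h4

/-- A quadratic polynomial with odd coefficients. -/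
lemma v2_quad {α β γ : ℚ} (hα : U 2 α) (hβ : U 2 β) (hγ : U 2 γ) (s : ℚ) :
    α * s ^ 2 + β * s + γ ≠ 0 ∧
      padicValRat 2 (α * s ^ 2 + β * s + γ) = 2 * min 0 (padicValRat 2 s) := by
  by_cases h : 0 ≤ padicValRat 2 s
  · have hs : Ge 2 0 s := Ge.of_le h
    have h1 : Ge 2 1 (s * (s + 1)) := by
      rcases U_or_Ge hs with h2 | h2
      · have := h2.sub_one.add ge2_two
        have e : s - 1 + 2 = s + 1 := by ring
        rw [e] at this
        exact hs.zero_mul this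
      · exact h2.mul_zero (hs.add Ge.one)
    have h2 := (h1.add (hα.sub_one.mul_zero (hs.mul_zero hs))).add (hβ.sub_one.mul_zero hs)
    have h3 := hγ.add h2
    have e : γ + (s * (s + 1) + (α - 1) * (s * s) + (β - 1) * s) = α * s ^ 2 + β * s + γ := by ring
    rw [e] at h3
    rw [min_eq_left h]
    exact h3
  · have hs0 : s ≠ 0 := by rintro rfl; simp at h
    have h1 : padicValRat 2 (α * s ^ 2) = 2 * padicValRat 2 s := by
      rw [padicValRat.mul hα.1 (pow_ne_zero _ hs0), hα.2, padicValRat.pow]; simp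
    have h2 : Ge 2 (padicValRat 2 (α * s ^ 2) + 1) (β * s + γ) := by
      rw [h1]
      exact ((hβ.ge.zero_mul (Ge.self s)).mono (by omega)).add (hγ.ge.mono (by omega))
    have h3 := v_add (mul_ne_zero hα.1 (pow_ne_zero _ hs0)) h2
    rw [min_eq_right (by omega), add_assoc, ← h1]
    exact h3

lemma U.of_five {d : ℚ} (hd : Ge 2 3 (d - 5)) : U 2 d := by
  have := (U.int (q := 2) (z := 5) (by norm_num)).add (hd.mono (by norm_num : (1 : ℤ) ≤ 3))
  simpa using this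

lemma ge_of_five {d : ℚ} (hd : Ge 2 3 (d - 5)) : Ge 2 2 (d - 1) := by
  have := (hd.mono (by norm_num : (2 : ℤ) ≤ 3)).add ge2_four
  have e : d - 5 + 4 = d - 1 := by ring
  rwa [e] at this

lemma not_ge_of_five {d : ℚ} (hd : Ge 2 3 (d - 5)) : ¬ Ge 2 3 (d - 1) := by
  intro h
  have := h.sub hd
  have e : d - 1 - (d - 5) = 4 := by ring
  rw [e] at this
  have := this.le (by norm_num)
  rw [v2_four] at this
  omega

/-- The norm form of the unramified quadratic extension of the 2-adics. -/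
lemma v2_norm {d u w : ℚ} (hd : Ge 2 3 (d - 5)) (h : u ≠ 0 ∨ w ≠ 0) :
    u ^ 2 - d * w ^ 2 ≠ 0 ∧ Even (padicValRat 2 (u ^ 2 - d * w ^ 2)) ∧
      (u ≠ 0 → padicValRat 2 (u ^ 2 - d * w ^ 2) ≤ 2 * padicValRat 2 u + 2) := by
  have hU := U.of_five hd
  by_cases hw : w = 0
  · have hu : u ≠ 0 := h.resolve_right (by simp [hw])
    simp [hw, hu]
  have h1 : padicValRat 2 (-(d * w ^ 2)) = 2 * padicValRat 2 w := by
    rw [padicValRat.neg, padicValRat.mul hU.1 (pow_ne_zero _ hw), hU.2, padicValRat.pow]; simp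
  have h0 : -(d * w ^ 2) ≠ 0 := neg_ne_zero.2 (mul_ne_zero hU.1 (pow_ne_zero _ hw))
  by_cases hu : u = 0
  · have e : u ^ 2 - d * w ^ 2 = -(d * w ^ 2) := by simp [hu]
    rw [e, h1]
    exact ⟨h0, even_two_mul _, fun h => absurd hu h⟩
  have h2 : padicValRat 2 (u ^ 2) = 2 * padicValRat 2 u := by rw [padicValRat.pow]; simp
  rcases lt_trichotomy (padicValRat 2 u) (padicValRat 2 w) with h3 | h3 | h3
  · have := v_add (q := 2) (pow_ne_zero 2 hu) (y := -(d * w ^ 2)) (Ge.of_le (by omega))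
    rw [sub_eq_add_neg, this.2, h2]
    exact ⟨this.1, even_two_mul _, fun _ => by omega⟩
  · have h4 : U 2 (u / w) := ⟨div_ne_zero hu hw, by rw [padicValRat.div hu hw]; omega⟩
    have h5 := v_add (q := 2) (x := -4) (y := (u / w) ^ 2 - 1 - (d - 5)) (by norm_num)
      (by rw [padicValRat.neg, v2_four]; exact h4.sq_sub_one.sub hd)
    have e : u ^ 2 - d * w ^ 2 = (-4 + ((u / w) ^ 2 - 1 - (d - 5))) * w ^ 2 := by
      field_simp; ring
    rw [e, padicValRat.mul h5.1 (pow_ne_zero _ hw), h5.2, padicValRat.neg, v2_four,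
      padicValRat.pow]
    refine ⟨mul_ne_zero h5.1 (pow_ne_zero _ hw), ⟨padicValRat 2 w + 1, by push_cast; ring⟩,
      fun _ => by push_cast; omega⟩
  · have := v_add (q := 2) h0 (y := u ^ 2) (Ge.of_le (by omega))
    have e : u ^ 2 - d * w ^ 2 = -(d * w ^ 2) + u ^ 2 := by ring
    rw [e, this.2, h1]
    exact ⟨this.1, even_two_mul _, fun _ => by omega⟩

lemma not_isN_of_odd {d c : ℚ} (hd : Ge 2 3 (d - 5)) (hc : Odd (padicValRat 2 c)) : ¬ IsN d c := by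
  rintro ⟨X, Y, h⟩
  by_cases h0 : X ≠ 0 ∨ Y ≠ 0
  · rw [h] at hc
    exact Int.not_odd_iff_even.2 (v2_norm hd h0).2.1 hc
  · push Not at h0
    rw [h, h0.1, h0.2] at hc
    simp at hc

/-- The odd primes where `x` is not a unit. -/
def supp (x : ℚ) : Finset ℕ := (x.num * x.den).natAbs.primeFactors.erase 2

lemma supp_prime {x : ℚ} {q : ℕ} (h : q ∈ supp x) : q.Prime ∧ q ≠ 2 := by
  rw [supp, Finset.mem_erase] at h
  exact ⟨Nat.prime_of_mem_primeFactors h.2, h.1⟩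

lemma mem_supp {x : ℚ} (hx : x ≠ 0) {q : ℕ} (hq : q.Prime) (h2 : q ≠ 2)
    (h : (q : ℤ) ∣ x.num * x.den) : q ∈ supp x := by
  rw [supp, Finset.mem_erase, Nat.mem_primeFactors]
  exact ⟨h2, hq, Int.natCast_dvd.1 h, Int.natAbs_ne_zero.2
    (mul_ne_zero (Rat.num_ne_zero.2 hx) (by exact_mod_cast x.den_nz))⟩

lemma v_of_not_mem_supp {x : ℚ} (hx : x ≠ 0) {q : ℕ} (hq : q.Prime) (h2 : q ≠ 2)
    (h : q ∉ supp x) : padicValRat q x = 0 := by
  have h1 : ¬ (q : ℤ) ∣ x.num * x.den := fun h1 => h (mem_supp hx hq h2 h1)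
  have h3 : ¬ (q : ℤ) ∣ x.num := fun h3 => h1 (Dvd.dvd.mul_right h3 _)
  have h4 : ¬ q ∣ x.den := fun h4 => h1 (Dvd.dvd.mul_left (by exact_mod_cast h4) _)
  rw [padicValRat_def, padicValInt.eq_zero_of_not_dvd h3, padicValNat.eq_zero_of_not_dvd h4]
  rfl

open Classical in
theorem recip_rat {a x : ℚ} (ha : Ge 2 2 (a - 1)) (hx : x ≠ 0) (hpos : 0 < a ∨ 0 < x)
    {T : Finset ℕ} (hT : ∀ q ∈ T, q.Prime ∧ q ≠ 2) (haT : supp a ⊆ T) (hxT : supp x ⊆ T) :
    ∏ q ∈ T, hs q a x = if Ge 2 3 (a - 1) ∨ Even (padicValRat 2 x) then 1 else -1 := by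
  have hU : U 2 a := by simpa using U.one.add (ha.mono (by norm_num : (1 : ℤ) ≤ 2))
  have hda : (a.den : ℚ) ≠ 0 := by exact_mod_cast a.den_nz
  have hdx : (x.den : ℚ) ≠ 0 := by exact_mod_cast x.den_nz
  have hUd : U 2 (a.den : ℚ) := by
    simpa using U.int (q := 2) (not_dvd_den (q := 2) hU.ge)
  have e1 : ((a.num * a.den - 1 : ℤ) : ℚ) = (a - 1) * (a.den : ℚ) ^ 2 + ((a.den : ℚ) ^ 2 - 1) := by
    rw [Int.cast_sub, int_rep]; push_cast; ring
  have h4 : (a.num * a.den) % 4 = 1 := by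
    have h5 : Ge 2 (2 : ℕ) ((a.num * a.den - 1 : ℤ) : ℚ) := by
      rw [e1]
      exact (ha.mul_zero hUd.sq.ge).add (hUd.sq_sub_one.mono (by norm_num))
    have := pow_dvd_of_Ge h5
    norm_num at this
    omega
  have h8 : (a.num * a.den) % 8 = 1 ↔ Ge 2 3 (a - 1) := by
    constructor
    · intro h
      have h5 : ((2 : ℕ) : ℤ) ^ 3 ∣ a.num * a.den - 1 := by norm_num; omega
      have h6 := ((Ge.of_pow_dvd h5).sub hUd.sq_sub_one).div_U hUd.sq
      rw [e1] at h6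
      have e : ((a - 1) * (a.den : ℚ) ^ 2 + ((a.den : ℚ) ^ 2 - 1) - ((a.den : ℚ) ^ 2 - 1)) /
        (a.den : ℚ) ^ 2 = a - 1 := by field_simp; ring
      rwa [e] at h6
    · intro h
      have h5 : Ge 2 (3 : ℕ) ((a.num * a.den - 1 : ℤ) : ℚ) := by
        rw [e1]
        exact (h.mul_zero hUd.sq.ge).add hUd.sq_sub_one
      have := pow_dvd_of_Ge h5
      norm_num at this
      omega
  have hX : x.num * x.den ≠ 0 := mul_ne_zero (Rat.num_ne_zero.2 hx) (by exact_mod_cast x.den_nz)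
  have he : Even (padicValInt 2 (x.num * x.den)) ↔ Even (padicValRat 2 x) := by
    rw [← Int.even_coe_nat, ← padicValRat.of_int, int_rep,
      padicValRat.mul hx (pow_ne_zero _ hdx), padicValRat.pow]
    simp [Int.even_add]
  have h1 := recip_int hT hX (fun q h1 h2 h3 => hxT (mem_supp hx h1 h2 h3)) _ (a.num * a.den) rfl
    h4 (fun q h1 h2 h3 => haT (mem_supp hU.1 h1 h2 h3))
  have h2 : ¬ (a.num * a.den < 0 ∧ x.num * x.den < 0) := by
    rintro ⟨h2, h3⟩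
    rcases hpos with h | h
    · have : 0 < a.num * a.den := mul_pos (Rat.num_pos.2 h) (by exact_mod_cast a.den_pos)
      omega
    · have : 0 < x.num * x.den := mul_pos (Rat.num_pos.2 h) (by exact_mod_cast x.den_pos)
      omega
  unfold RR at h1
  simp only [h2, h8, he, if_false, mul_one] at h1
  rw [← h1]
  apply Finset.prod_congr rfl
  intro q hq
  have := Fact.mk (hT q hq).1
  rw [int_rep, int_rep, hs_mul_LSq_right (mul_ne_zero hU.1 (pow_ne_zero _ hda)) hx (LSq.sq hdx),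
    hs_comm (a * _), hs_mul_LSq_right hx hU.1 (LSq.sq hda), hs_comm]

lemma rec_one {a x : ℚ} (ha : Ge 2 2 (a - 1)) (hx : x ≠ 0) (hpos : 0 < a ∨ 0 < x)
    (h2 : Ge 2 3 (a - 1) ∨ Even (padicValRat 2 x)) {l : ℕ} (hl : l.Prime) (hl2 : l ≠ 2)
    (h : ∀ q : ℕ, q.Prime → q ≠ 2 → q ≠ l → hs q a x = 1) : hs l a x = 1 := by
  have hT : ∀ q ∈ insert l (supp a ∪ supp x), q.Prime ∧ q ≠ 2 := by
    intro q hq
    simp only [Finset.mem_insert, Finset.mem_union] at hq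
    rcases hq with rfl | hq | hq
    exacts [⟨hl, hl2⟩, supp_prime hq, supp_prime hq]
  have h1 := recip_rat ha hx hpos hT
    (Finset.subset_union_left.trans (Finset.subset_insert _ _))
    (Finset.subset_union_right.trans (Finset.subset_insert _ _))
  rw [if_pos h2, Finset.prod_eq_single_of_mem l (Finset.mem_insert_self _ _)
    (fun q hq hql => h q (hT q hq).1 (hT q hq).2 hql)] at h1
  exact h1

lemma rec_two {a x : ℚ} (ha : Ge 2 3 (a - 5)) (hx : x ≠ 0) (hpos : 0 < a ∨ 0 < x)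
    (h2 : Odd (padicValRat 2 x)) {p l : ℕ} (hp : p.Prime) (hp2 : p ≠ 2) (hl : l.Prime)
    (hl2 : l ≠ 2) (hpl : p ≠ l) (hpa : hs p a x = -1)
    (h : ∀ q : ℕ, q.Prime → q ≠ 2 → q ≠ p → q ≠ l → hs q a x = 1) : hs l a x = 1 := by
  have hT : ∀ q ∈ insert p (insert l (supp a ∪ supp x)), q.Prime ∧ q ≠ 2 := by
    intro q hq
    simp only [Finset.mem_insert, Finset.mem_union] at hq
    rcases hq with rfl | rfl | hq | hq
    exacts [⟨hp, hp2⟩, ⟨hl, hl2⟩, supp_prime hq, supp_prime hq]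
  have h1 := recip_rat (ge_of_five ha) hx hpos hT
    (Finset.subset_union_left.trans ((Finset.subset_insert _ _).trans (Finset.subset_insert _ _)))
    (Finset.subset_union_right.trans ((Finset.subset_insert _ _).trans (Finset.subset_insert _ _)))
  rw [if_neg (by
    rintro (h3 | h3)
    · exact not_ge_of_five ha h3
    · exact Int.not_odd_iff_even.2 h3 h2),
    Finset.prod_eq_mul_of_mem p l (Finset.mem_insert_self _ _)
      (Finset.mem_insert_of_mem (Finset.mem_insert_self _ _)) hpl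
      (fun q hq hql => h q (hT q hq).1 (hT q hq).2 hql.1 hql.2), hpa] at h1
  omega

end Pool.Agent.MP_28f2cb_lc.H22
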